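import Pool.Agent.Helper14.GB.Conf

/-! The dance at a branch point. -/

set_option autoImplicit false

open Topology Set

namespace Pool.Agent.Helper14.GB

/-- A point `v` with a distance function `rho` to it and three arms issuing from it, the first of
which is open. -/
structure Branch (Y : Type) [TopologicalSpace Y] where
  rho : C(Y, unitInterval)
  v : Y
  rho_eq : ∀ y, rho y = 0 ↔ y = v
  a0 : C(ℝ, Y)
  a1 : C(ℝ, Y)
  a2 : C(ℝ, Y)
  r0 : ∀ t, 0 ≤ t → t ≤ 1 → ((rho (a0 t) : unitInterval) : ℝ) = t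
  r1 : ∀ t, 0 ≤ t → t ≤ 1 → ((rho (a1 t) : unitInterval) : ℝ) = t
  r2 : ∀ t, 0 ≤ t → t ≤ 1 → ((rho (a2 t) : unitInterval) : ℝ) = t
  ne01 : ∀ t, 0 < t → t < 1 → a0 t ≠ a1 t
  ne02 : ∀ t, 0 < t → t < 1 → a0 t ≠ a2 t
  ne12 : ∀ t, 0 < t → t < 1 → a1 t ≠ a2 t
  open0 : IsOpen (a0 '' Ioo 0 1)

/-- the line through two arms -/
noncomputable def ell {Y : Type} [TopologicalSpace Y] (a b : C(ℝ, Y)) (x : ℝ) : Y :=
  if 0 ≤ x then a x else b (-x)

theorem continuous_ell {Y : Type} [TopologicalSpace Y] {a b : C(ℝ, Y)} (h : a 0 = b 0) :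
    Continuous (ell a b) := by
  unfold ell
  apply Continuous.if_le a.continuous (b.continuous.comp continuous_neg) continuous_const
    continuous_id
  intro x hx
  have : x = 0 := hx.symm
  subst this
  simp [h]

namespace Branch

variable {Y : Type} [TopologicalSpace Y] (B : Branch Y)

/-- the open first arm -/
def A0 : Set Y := B.a0 '' Ioo 0 1

theorem a0_zero : B.a0 0 = B.v := by
  rw [← B.rho_eq]
  apply Subtype.ext
  rw [B.r0 0 le_rfl zero_le_one]; rfl

theorem a1_zero : B.a1 0 = B.v := by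
  rw [← B.rho_eq]
  apply Subtype.ext
  rw [B.r1 0 le_rfl zero_le_one]; rfl

theorem a2_zero : B.a2 0 = B.v := by
  rw [← B.rho_eq]
  apply Subtype.ext
  rw [B.r2 0 le_rfl zero_le_one]; rfl

/-- the line through arms 0 and 2 -/
noncomputable def l02 : ℝ → Y := ell B.a0 B.a2

/-- the line through arms 0 and 1 -/
noncomputable def l01 : ℝ → Y := ell B.a0 B.a1

theorem continuous_l02 : Continuous B.l02 := continuous_ell (by rw [B.a0_zero, B.a2_zero])

theorem continuous_l01 : Continuous B.l01 := continuous_ell (by rw [B.a0_zero, B.a1_zero])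

theorem rho_l02 {x : ℝ} (hx : |x| ≤ 1) : ((B.rho (B.l02 x) : unitInterval) : ℝ) = |x| := by
  unfold l02 ell
  split_ifs with h
  · rw [abs_of_nonneg h] at hx ⊢
    exact B.r0 x h hx
  · push Not at h
    rw [abs_of_neg h] at hx ⊢
    exact B.r2 (-x) (by linarith) hx

theorem rho_l01 {x : ℝ} (hx : |x| ≤ 1) : ((B.rho (B.l01 x) : unitInterval) : ℝ) = |x| := by
  unfold l01 ell
  split_ifs with h
  · rw [abs_of_nonneg h] at hx ⊢
    exact B.r0 x h hx
  · push Not at h
    rw [abs_of_neg h] at hx ⊢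
    exact B.r1 (-x) (by linarith) hx

/-- the two lines only meet in the common arm -/
theorem l02_eq_l01 {p e : ℝ} (hp : |p| < 1) (he : |e| < 1) (h : B.l02 p = B.l01 e) :
    p = e ∧ 0 ≤ e := by
  have habs : |p| = |e| := by
    rw [← B.rho_l02 hp.le, ← B.rho_l01 he.le, h]
  unfold l02 l01 ell at h
  rcases lt_trichotomy p 0 with hp0 | hp0 | hp0
  · rw [if_neg (not_le.2 hp0)] at h
    rcases lt_or_ge e 0 with he0 | he0
    · rw [if_neg (not_le.2 he0)] at h
      rw [abs_of_neg hp0, abs_of_neg he0] at habs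
      rw [abs_of_neg hp0] at hp
      rw [← habs] at h
      exact absurd h.symm (B.ne12 (-p) (by linarith) hp)
    · rw [if_pos he0] at h
      rw [abs_of_neg hp0, abs_of_nonneg he0] at habs
      rw [abs_of_neg hp0] at hp
      rw [← habs] at h
      exact absurd h.symm (B.ne02 (-p) (by linarith) hp)
  · subst hp0
    simp only [abs_zero] at habs
    have : e = 0 := abs_eq_zero.1 habs.symm
    subst this
    exact ⟨rfl, le_rfl⟩
  · rw [if_pos hp0.le] at h
    rcases lt_or_ge e 0 with he0 | he0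
    · rw [if_neg (not_le.2 he0)] at h
      rw [abs_of_pos hp0, abs_of_neg he0] at habs
      rw [abs_of_pos hp0] at hp
      rw [← habs] at h
      exact absurd h (B.ne01 p hp0 hp)
    · rw [abs_of_pos hp0, abs_of_nonneg he0] at habs
      exact ⟨habs, he0⟩

theorem mem_A0 {y : Y} (hy : y ∈ B.A0) :
    0 < ((B.rho y : unitInterval) : ℝ) ∧ ((B.rho y : unitInterval) : ℝ) < 1 ∧
      B.a0 ((B.rho y : unitInterval) : ℝ) = y := by
  obtain ⟨t, ht, rfl⟩ := hy
  rw [B.r0 t ht.1.le ht.2.le]
  exact ⟨ht.1, ht.2, rfl⟩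

theorem frontier_A0 [T2Space Y] {y : Y} (hy : y ∈ frontier B.A0) : y = B.v ∨ y = B.a0 1 := by
  have hcl : closure B.A0 ⊆ B.a0 '' Icc 0 1 := by
    apply closure_minimal
    · exact image_mono Ioo_subset_Icc_self
    · exact (isCompact_Icc.image B.a0.continuous).isClosed
  have hopen : IsOpen B.A0 := B.open0
  rw [hopen.frontier_eq] at hy
  obtain ⟨t, ht, rfl⟩ := hcl hy.1
  rcases eq_or_lt_of_le ht.1 with h0 | h0
  · left; rw [← h0, B.a0_zero]
  · rcases eq_or_lt_of_le ht.2 with h1 | h1
    · right; rw [h1]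
    · exact absurd ⟨t, ⟨h0, h1⟩, rfl⟩ hy.2

/-- position of the moving particle on the line through arms 0 and 2, as a function of the
parameter `s` of the homotopy, its own distance `r` to the branch point and the distance `m` of the
next one -/
noncomputable def q (s r m : ℝ) : ℝ := (1 - s) * max (min (3 * r - 2 * m) r) (-r / 2) + s * r

theorem q_of_ge {s r m : ℝ} (hr : 0 ≤ r) (hm : m ≤ r) : q s r m = r := by
  unfold q
  have h1 : min (3 * r - 2 * m) r = r := min_eq_right (by linarith)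
  rw [h1, max_eq_left (by linarith)]
  ring

theorem q_abs_lt {s r m : ℝ} (hs0 : 0 ≤ s) (hs1 : s ≤ 1) (hr : 0 ≤ r) (hm : r < m) :
    |q s r m| < m := by
  have h1 : max (min (3 * r - 2 * m) r) (-r / 2) < m := by
    rw [max_lt_iff]
    constructor
    · exact lt_of_le_of_lt (min_le_right _ _) hm
    · linarith
  have h2 : -m < max (min (3 * r - 2 * m) r) (-r / 2) :=
    lt_of_lt_of_le (by linarith) (le_max_right _ _)
  unfold q
  set P := max (min (3 * r - 2 * m) r) (-r / 2)
  rw [abs_lt]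
  rcases eq_or_lt_of_le hs0 with h | h
  · rw [← h]; constructor <;> linarith
  · rcases eq_or_lt_of_le hs1 with h' | h'
    · rw [h']; constructor <;> linarith
    · constructor
      · nlinarith
      · nlinarith

/-- position of the extra particle on the line through arms 0 and 1 when the closest particle is
in arm 0 -/
noncomputable def e0 (r m : ℝ) : ℝ := max (min (r - m) 0) ((m - 3 * r) / 2)

/-- position of the extra particle when the closest particle is not in arm 0 -/
noncomputable def e1 (r m : ℝ) : ℝ := max 0 ((m - r) / 2)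

theorem e0_of_ge {r m : ℝ} (hr : 0 ≤ r) (hm : m ≤ r) : e0 r m = 0 := by
  unfold e0
  rw [min_eq_right (by linarith), max_eq_left (by linarith)]

theorem e1_of_ge {r m : ℝ} (hm : m ≤ r) : e1 r m = 0 := by
  unfold e1
  rw [max_eq_left (by linarith)]

theorem e0_abs_lt {r m : ℝ} (hr : 0 < r) (hm : r < m) : |e0 r m| < m := by
  unfold e0
  rw [abs_lt]
  constructor
  · apply lt_of_lt_of_le _ (le_max_left _ _)
    rw [lt_min_iff]
    constructor <;> linarith
  · rw [max_lt_iff]
    constructor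
    · exact lt_of_le_of_lt (min_le_right _ _) (by linarith)
    · linarith

theorem e1_abs_lt {r m : ℝ} (hr : 0 ≤ r) (hm : r < m) : |e1 r m| < m := by
  unfold e1
  rw [abs_of_nonneg (le_max_left _ _), max_lt_iff]
  constructor <;> linarith

theorem q_ne_e0 {r m : ℝ} (hr : 0 < r) (hm : r < m) : ¬ (q 0 r m = e0 r m ∧ 0 ≤ e0 r m) := by
  rintro ⟨h1, h2⟩
  unfold q e0 at h1
  unfold e0 at h2
  rw [min_eq_left (by linarith : r - m ≤ 0)] at h1 h2
  rw [min_eq_left (by linarith : 3 * r - 2 * m ≤ r)] at h1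
  have h3 : r - m < 0 := by linarith
  rcases le_total (r - m) ((m - 3 * r) / 2) with h4 | h4
  · rw [max_eq_right h4] at h1 h2
    rcases le_total (3 * r - 2 * m) (-r / 2) with h5 | h5
    · rw [max_eq_right h5] at h1; linarith
    · rw [max_eq_left h5] at h1; linarith
  · rw [max_eq_left h4] at h2
    linarith

open Classical in
/-- the displacement of a particle -/
noncomputable def g (y : Y) (m s : ℝ) : Y :=
  if y ∈ B.A0 then B.l02 (q s ((B.rho y : unitInterval) : ℝ) m) else y

theorem g_of_ge {y : Y} {m s : ℝ} (hm : m ≤ ((B.rho y : unitInterval) : ℝ)) :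
    B.g y m s = y := by
  unfold g
  split_ifs with h
  · obtain ⟨h1, h2, h3⟩ := B.mem_A0 h
    rw [q_of_ge h1.le hm]
    unfold l02 ell
    rw [if_pos h1.le, h3]
  · rfl

theorem rho_g_lt {y : Y} {m s : ℝ} (hs0 : 0 ≤ s) (hs1 : s ≤ 1)
    (hm : ((B.rho y : unitInterval) : ℝ) < m) (hm1 : m ≤ 1) :
    ((B.rho (B.g y m s) : unitInterval) : ℝ) < m := by
  unfold g
  split_ifs with h
  · have h1 := q_abs_lt hs0 hs1 (B.rho y).2.1 hm
    rw [B.rho_l02 (h1.le.trans hm1)]
    exact h1
  · exact hm

theorem continuous_g [T2Space Y] :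
    Continuous (fun x : Y × unitInterval × unitInterval => B.g x.1 (x.2.1 : ℝ) (x.2.2 : ℝ)) := by
  classical
  unfold g
  apply Continuous.if
  · intro x hx
    have h1 : x.1 ∈ frontier B.A0 :=
      continuous_fst.frontier_preimage_subset B.A0 hx
    rcases B.frontier_A0 h1 with h | h
    · rw [h]
      have h2 : ((B.rho B.v : unitInterval) : ℝ) = 0 := by
        rw [(B.rho_eq B.v).2 rfl]; rfl
      rw [h2]
      have h3 : q (x.2.2 : ℝ) 0 (x.2.1 : ℝ) = 0 := by
        unfold q
        have : max (min (3 * 0 - 2 * (x.2.1 : ℝ)) 0) (-0 / 2) = (0 : ℝ) := by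
          rw [neg_zero, zero_div]
          exact max_eq_right (min_le_right _ _)
        rw [this]; ring
      rw [h3]
      unfold l02 ell
      rw [if_pos le_rfl, B.a0_zero]
    · rw [h, B.r0 1 zero_le_one le_rfl, q_of_ge zero_le_one x.2.1.2.2]
      unfold l02 ell
      rw [if_pos zero_le_one]
  · apply B.continuous_l02.comp
    unfold q
    fun_prop
  · exact continuous_fst

open Classical in
/-- the position of the extra particle -/
noncomputable def h (y : Y) (m : ℝ) : ℝ :=
  if y ∈ B.A0 then e0 ((B.rho y : unitInterval) : ℝ) m else e1 ((B.rho y : unitInterval) : ℝ) m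

theorem h_of_ge {y : Y} {m : ℝ} (hm : m ≤ ((B.rho y : unitInterval) : ℝ)) : B.h y m = 0 := by
  unfold h
  split_ifs
  · exact e0_of_ge (B.rho y).2.1 hm
  · exact e1_of_ge hm

theorem continuous_h [T2Space Y] :
    Continuous (fun x : Y × unitInterval => B.h x.1 (x.2 : ℝ)) := by
  classical
  unfold h
  apply Continuous.if
  · intro x hx
    have h1 : x.1 ∈ frontier B.A0 :=
      continuous_fst.frontier_preimage_subset B.A0 hx
    rcases B.frontier_A0 h1 with h | h
    · rw [h]
      have h2 : ((B.rho B.v : unitInterval) : ℝ) = 0 := by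
        rw [(B.rho_eq B.v).2 rfl]; rfl
      rw [h2]
      unfold e0 e1
      have h3 := x.2.2.1
      rw [min_eq_left (by linarith), max_eq_right (by linarith), max_eq_right (by linarith)]
      ring
    · rw [h, B.r0 1 zero_le_one le_rfl, e0_of_ge zero_le_one x.2.2.2, e1_of_ge x.2.2.2]
  · unfold e0
    fun_prop
  · unfold e1
    fun_prop

/-- the distance from `v` of the closest particle other than the `i`-th -/
noncomputable def mm {n : ℕ} (f : Fin n → Y) (i : Fin n) : unitInterval :=
  (Finset.univ.erase i).inf (fun j => B.rho (f j))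

theorem mm_le {n : ℕ} (f : Fin n → Y) {i j : Fin n} (h : j ≠ i) : B.mm f i ≤ B.rho (f j) :=
  Finset.inf_le (by simp [h])

theorem mm_perm {n : ℕ} (f : Fin n → Y) (τ : Equiv.Perm (Fin n)) (i : Fin n) :
    B.mm (f ∘ τ) i = B.mm f (τ i) := by
  apply le_antisymm
  · apply Finset.le_inf
    intro j hj
    have hj' : τ.symm j ≠ i := by
      intro h
      rw [Finset.mem_erase] at hj
      exact hj.1 (by rw [← h]; simp)
    have := B.mm_le (f ∘ τ) hj'
    simpa using this
  · apply Finset.le_inf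
    intro j hj
    rw [Finset.mem_erase] at hj
    exact B.mm_le f (fun h => hj.1 (τ.injective h))

theorem continuous_mm {n : ℕ} (i : Fin n) : Continuous (fun f : OC n Y => B.mm f.1 i) := by
  unfold mm
  apply Continuous.finset_inf_apply
  intro j _
  exact B.rho.continuous.comp ((continuous_apply j).comp continuous_subtype_val)

theorem g_injective {n : ℕ} (f : OC n Y) {s : ℝ} (hs0 : 0 ≤ s) (hs1 : s ≤ 1) :
    Function.Injective (fun i => B.g (f.1 i) (B.mm f.1 i : ℝ) s) := by
  have key : ∀ i j, i ≠ j → ((B.rho (f.1 i) : unitInterval) : ℝ) < (B.mm f.1 i : ℝ) →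
      B.g (f.1 i) (B.mm f.1 i : ℝ) s ≠ B.g (f.1 j) (B.mm f.1 j : ℝ) s := by
    intro i j hij hi heq
    have h1 : (B.mm f.1 i : ℝ) ≤ ((B.rho (f.1 j) : unitInterval) : ℝ) := B.mm_le f.1 hij.symm
    have h2 : (B.mm f.1 j : ℝ) ≤ ((B.rho (f.1 i) : unitInterval) : ℝ) := B.mm_le f.1 hij
    have h3 := B.rho_g_lt hs0 hs1 hi (B.mm f.1 i).2.2
    rw [heq, B.g_of_ge (h2.trans (hi.le.trans h1))] at h3
    linarith
  intro i j hij
  dsimp only at hij
  by_contra hne
  by_cases hi : ((B.rho (f.1 i) : unitInterval) : ℝ) < (B.mm f.1 i : ℝ)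
  · exact key i j hne hi hij
  · by_cases hj : ((B.rho (f.1 j) : unitInterval) : ℝ) < (B.mm f.1 j : ℝ)
    · exact key j i (Ne.symm hne) hj hij.symm
    · push Not at hi hj
      rw [B.g_of_ge hi, B.g_of_ge hj] at hij
      exact hne (f.2 hij)

/-- the isotopy of configurations -/
noncomputable def HH [T2Space Y] (n : ℕ) : C(unitInterval × OC n Y, OC n Y) where
  toFun x := ⟨fun i => B.g (x.2.1 i) (B.mm x.2.1 i : ℝ) (x.1 : ℝ),
    B.g_injective x.2 x.1.2.1 x.1.2.2⟩
  continuous_toFun := by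
    apply Continuous.subtype_mk
    apply continuous_pi
    intro i
    have h1 : Continuous (fun x : unitInterval × OC n Y =>
        ((x.2.1 i, B.mm x.2.1 i, x.1) : Y × unitInterval × unitInterval)) := by
      refine Continuous.prodMk ?_ (Continuous.prodMk ?_ continuous_fst)
      · exact (continuous_apply i).comp (continuous_subtype_val.comp continuous_snd)
      · exact (B.continuous_mm i).comp continuous_snd
    exact B.continuous_g.comp h1

/-- the extra particle -/
noncomputable def ex [T2Space Y] (n : ℕ) : C(OC n Y, Y) where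
  toFun f := B.l01 (∑ i, B.h (f.1 i) (B.mm f.1 i : ℝ))
  continuous_toFun := by
    apply B.continuous_l01.comp
    apply continuous_finsetSum
    intro i _
    have h1 : Continuous (fun f : OC n Y => ((f.1 i, B.mm f.1 i) : Y × unitInterval)) := by
      refine Continuous.prodMk ?_ (B.continuous_mm i)
      exact (continuous_apply i).comp continuous_subtype_val
    exact B.continuous_h.comp h1

theorem ex_ne [T2Space Y] {n : ℕ} (f : OC n Y) (i : Fin n) :
    B.g (f.1 i) (B.mm f.1 i : ℝ) 0 ≠ B.ex n f := by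
  show B.g (f.1 i) (B.mm f.1 i : ℝ) 0 ≠ B.l01 (∑ i, B.h (f.1 i) (B.mm f.1 i : ℝ))
  by_cases hex : ∃ i₀, ((B.rho (f.1 i₀) : unitInterval) : ℝ) < (B.mm f.1 i₀ : ℝ)
  · obtain ⟨i₀, hi₀⟩ := hex
    have hother : ∀ j, j ≠ i₀ → (B.mm f.1 j : ℝ) ≤ ((B.rho (f.1 i₀) : unitInterval) : ℝ) ∧
        (B.mm f.1 i₀ : ℝ) ≤ ((B.rho (f.1 j) : unitInterval) : ℝ) := by
      intro j hj
      exact ⟨B.mm_le f.1 hj.symm, B.mm_le f.1 hj⟩
    have hsum : (∑ i, B.h (f.1 i) (B.mm f.1 i : ℝ)) = B.h (f.1 i₀) (B.mm f.1 i₀ : ℝ) := by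
      apply Finset.sum_eq_single
      · intro j _ hj
        obtain ⟨h1, h2⟩ := hother j hj
        exact B.h_of_ge (h1.trans (hi₀.le.trans h2))
      · intro h; exact absurd (Finset.mem_univ _) h
    rw [hsum]
    have hm1 : (B.mm f.1 i₀ : ℝ) ≤ 1 := (B.mm f.1 i₀).2.2
    have hr0 : 0 ≤ ((B.rho (f.1 i₀) : unitInterval) : ℝ) := (B.rho (f.1 i₀)).2.1
    have habs : |B.h (f.1 i₀) (B.mm f.1 i₀ : ℝ)| < (B.mm f.1 i₀ : ℝ) := by
      unfold h
      split_ifs with hA
      · exact e0_abs_lt (B.mem_A0 hA).1 hi₀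
      · exact e1_abs_lt hr0 hi₀
    by_cases hi : i = i₀
    · subst hi
      by_cases hA : f.1 i ∈ B.A0
      · intro heq
        unfold g at heq
        rw [if_pos hA] at heq
        have h1 := B.l02_eq_l01 ((q_abs_lt le_rfl zero_le_one hr0 hi₀).trans_le hm1)
          (habs.trans_le hm1) heq
        unfold h at h1
        rw [if_pos hA] at h1
        exact q_ne_e0 (B.mem_A0 hA).1 hi₀ h1
      · intro heq
        unfold g h at heq
        rw [if_neg hA, if_neg hA] at heq
        apply hA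
        rw [heq]
        unfold e1 l01 ell
        rw [if_pos (le_max_left _ _)]
        refine ⟨_, ⟨?_, ?_⟩, rfl⟩
        · exact lt_of_lt_of_le (by linarith) (le_max_right _ _)
        · rw [max_lt_iff]; constructor <;> linarith
    · obtain ⟨h1, h2⟩ := hother i hi
      rw [B.g_of_ge (h1.trans (hi₀.le.trans h2))]
      intro heq
      rw [heq, B.rho_l01 (habs.le.trans hm1)] at h2
      linarith
  · push Not at hex
    have hsum : (∑ i, B.h (f.1 i) (B.mm f.1 i : ℝ)) = 0 :=
      Finset.sum_eq_zero (fun i _ => B.h_of_ge (hex i))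
    rw [hsum, B.g_of_ge (hex i)]
    intro heq
    have h1 : f.1 i = B.v := by
      rw [heq]; unfold l01 ell; rw [if_pos le_rfl, B.a0_zero]
    have h2 : B.rho (f.1 i) = 0 := (B.rho_eq _).2 h1
    have h3 : (0 : unitInterval) < B.mm f.1 i := by
      unfold mm
      rw [Finset.lt_inf_iff]
      · intro j hj
        rw [Finset.mem_erase] at hj
        rw [unitInterval.pos_iff_ne_zero]
        intro h4
        exact hj.1 (f.2 (((B.rho_eq _).1 h4).trans h1.symm))
      · exact unitInterval.lt_one_iff_ne_one.2 (by norm_num)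
    have h4 := hex i
    rw [h2] at h4
    exact absurd h3 (not_lt.2 h4)

include B in
/-- **Branch theorem.** -/
theorem exists_piInj [T2Space Y] (n : ℕ) : ∃ F : C(UC n Y, UC (n + 1) Y), PiInj F := by
  let D : C(OC n Y, OC n Y) := (B.HH n).comp ⟨fun f => (0, f), by fun_prop⟩
  apply section_lemma D (B.ex n)
  · intro f i
    exact B.ex_ne f i
  · intro f τ
    apply Subtype.ext
    funext i
    show B.g (f.1 (τ i)) (B.mm (f.1 ∘ τ) i : ℝ) 0 = B.g (f.1 (τ i)) (B.mm f.1 (τ i) : ℝ) 0
    rw [B.mm_perm]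
  · intro f τ
    show B.l01 _ = B.l01 _
    congr 1
    show ∑ i, B.h (f.1 (τ i)) (B.mm (f.1 ∘ τ) i : ℝ) = ∑ i, B.h (f.1 i) (B.mm f.1 i : ℝ)
    simp_rw [B.mm_perm]
    exact Equiv.sum_comp τ (fun i => B.h (f.1 i) (B.mm f.1 i : ℝ))
  · refine ⟨B.HH n, ?_, ?_⟩
    · intro f; rfl
    · intro f
      apply Subtype.ext
      funext i
      show B.g (f.1 i) (B.mm f.1 i : ℝ) ((1 : unitInterval) : ℝ) = f.1 i
      unfold g
      split_ifs with hA
      · obtain ⟨h1, h2, h3⟩ := B.mem_A0 hA
        unfold q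
        rw [show ((1 : unitInterval) : ℝ) = 1 from rfl]
        simp only [sub_self, zero_mul, one_mul, zero_add]
        unfold l02 ell
        rw [if_pos h1.le, h3]
      · rfl

end Branch

end Pool.Agent.Helper14.GB
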