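import Pool.Agent.Helper14.GB.Conf

/-! The circle: `UC m → circle → UC n` is injective on fundamental groups. -/

set_option autoImplicit false

open Topology Set

namespace Pool.Agent.Helper14.GB

/-- the circle -/
abbrev T1 : Type := AddCircle (1 : ℝ)

/-- the representative in `[0, 1)` -/
noncomputable def rep (z : T1) : ℝ := (AddCircle.equivIco (1 : ℝ) 0 z : ℝ)

theorem rep_nonneg (z : T1) : 0 ≤ rep z := (AddCircle.equivIco (1 : ℝ) 0 z).2.1

theorem rep_lt_one (z : T1) : rep z < 1 := by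
  have h : ((AddCircle.equivIco (1 : ℝ) 0 z : ℝ)) < 0 + 1 := (AddCircle.equivIco (1 : ℝ) 0 z).2.2
  unfold rep
  linarith

theorem coe_rep (z : T1) : ((rep z : ℝ) : T1) = z := AddCircle.coe_equivIco

theorem rep_coe {x : ℝ} (h0 : 0 ≤ x) (h1 : x < 1) : rep (x : T1) = x := by
  unfold rep
  exact AddCircle.equivIco_coe_of_mem ⟨h0, by rw [zero_add]; exact h1⟩

theorem rep_pos {z : T1} (hz : z ≠ 0) : 0 < rep z := by
  rcases eq_or_lt_of_le (rep_nonneg z) with h | h
  · exfalso
    apply hz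
    rw [← coe_rep z, ← h, AddCircle.coe_zero]
  · exact h

theorem coe_ne_zero {x : ℝ} (h0 : 0 < x) (h1 : x < 1) : (x : T1) ≠ 0 := by
  intro h
  have h2 := rep_coe h0.le h1
  rw [h] at h2
  have h3 : rep (0 : T1) = 0 := by
    have := rep_coe le_rfl zero_lt_one
    rw [AddCircle.coe_zero] at this
    exact this
  rw [h3] at h2
  exact absurd h2 h0.ne

theorem rep_neg {z : T1} (hz : z ≠ 0) : rep (-z) = 1 - rep z := by
  have h1 : (-z : T1) = ((1 - rep z : ℝ) : T1) := by
    rw [AddCircle.coe_sub, coe_rep, AddCircle.coe_period, zero_sub]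
  rw [h1, rep_coe]
  · have := rep_lt_one z; linarith
  · have := rep_pos hz; linarith

theorem rep_sub (z w : T1) :
    rep (z - w) = rep z - rep w + (if rep z < rep w then 1 else 0) := by
  have h1 : z - w = ((rep z - rep w : ℝ) : T1) := by
    rw [AddCircle.coe_sub, coe_rep, coe_rep]
  have h2 := rep_nonneg z
  have h3 := rep_nonneg w
  have h4 := rep_lt_one z
  have h5 := rep_lt_one w
  split_ifs with h
  · have h6 : ((rep z - rep w : ℝ) : T1) = ((rep z - rep w + 1 : ℝ) : T1) := by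
      rw [AddCircle.coe_add, AddCircle.coe_period, add_zero]
    rw [h1, h6, rep_coe] <;> linarith
  · rw [h1, rep_coe] <;> linarith

theorem continuousAt_rep {z : T1} (hz : z ≠ 0) : ContinuousAt rep z := by
  unfold rep
  exact continuous_subtype_val.continuousAt.comp
    (AddCircle.continuousAt_equivIco (1 : ℝ) 0 (by simpa using hz))

section

variable {n : ℕ}

/-- displacement of the `i`-th particle -/
noncomputable def disp (f : Fin (n + 1) → T1) (i : Fin (n + 1)) : ℝ :=
  (∑ j ∈ Finset.univ.erase i, (rep (f j - f i) - 1 / 2)) / (n + 1 : ℕ)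

theorem disp_perm (f : Fin (n + 1) → T1) (τ : Equiv.Perm (Fin (n + 1))) (i : Fin (n + 1)) :
    disp (f ∘ τ) i = disp f (τ i) := by
  unfold disp
  congr 1
  apply Finset.sum_equiv τ
  · intro j
    simp
  · intro j _
    rfl

theorem disp_sub {f : Fin (n + 1) → T1} (hf : Function.Injective f) {i j : Fin (n + 1)}
    (hij : i ≠ j) : ∃ a : ℕ, 0 < a ∧ a < n + 1 ∧
      disp f j - disp f i = (a : ℝ) / (n + 1 : ℕ) - rep (f j - f i) := by
  classical
  set d := rep (f j - f i) with hd
  let S : Finset (Fin (n + 1)) := (Finset.univ.erase i).erase j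
  have hSi : Finset.univ.erase i = insert j S := by
    rw [Finset.insert_erase]
    simp [Ne.symm hij]
  have hSj : Finset.univ.erase j = insert i S := by
    ext k
    simp only [S, Finset.mem_erase, Finset.mem_univ, and_true, Finset.mem_insert]
    constructor
    · intro h
      by_cases hk : k = i
      · left; exact hk
      · right; exact ⟨h, hk⟩
    · rintro (h | h)
      · rw [h]; exact hij
      · exact h.1
  have hjS : j ∉ S := by simp [S]
  have hiS : i ∉ S := by simp [S]
  have hcardS : S.card + 2 = n + 1 := by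
    have h1 : (Finset.univ.erase i : Finset (Fin (n + 1))).card = n := by
      rw [Finset.card_erase_of_mem (Finset.mem_univ _)]; simp
    rw [hSi, Finset.card_insert_of_notMem hjS] at h1
    omega
  have hne : f j - f i ≠ 0 := fun h => hij (hf (sub_eq_zero.1 h)).symm
  have h1 : rep (f i - f j) = 1 - d := by
    rw [← neg_sub, rep_neg hne]
  let c : Fin (n + 1) → Prop := fun k => rep (f k - f i) < d
  have h2 : ∀ k ∈ S, rep (f k - f j) - 1 / 2 = rep (f k - f i) - 1 / 2 +
      (-d + (if rep (f k - f i) < d then 1 else 0)) := by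
    intro k hk
    have h3 : f k - f j = (f k - f i) - (f j - f i) := by abel
    rw [h3, rep_sub]
    ring
  have h3 : ∑ k ∈ S, (rep (f k - f j) - 1 / 2) = ∑ k ∈ S, (rep (f k - f i) - 1 / 2) +
      (-(S.card : ℝ) * d + ((S.filter (fun k => rep (f k - f i) < d)).card : ℝ)) := by
    rw [Finset.sum_congr rfl h2, Finset.sum_add_distrib, Finset.sum_add_distrib,
      Finset.sum_const, nsmul_eq_mul, Finset.sum_boole]
    ring
  have hle : (S.filter (fun k => rep (f k - f i) < d)).card ≤ S.card := Finset.card_filter_le _ _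
  refine ⟨1 + (S.filter (fun k => rep (f k - f i) < d)).card, by omega, by omega, ?_⟩
  have hn : ((n + 1 : ℕ) : ℝ) ≠ 0 := by exact_mod_cast Nat.succ_ne_zero n
  unfold disp
  rw [hSj, Finset.sum_insert hiS, hSi, Finset.sum_insert hjS, h3, h1, ← hd]
  have hcard : (S.card : ℝ) = ((n + 1 : ℕ) : ℝ) - 2 := by
    have : ((S.card + 2 : ℕ) : ℝ) = ((n + 1 : ℕ) : ℝ) := by rw [hcardS]
    push_cast at this ⊢
    linarith
  rw [hcard]
  field_simp
  push_cast
  ring

/-- the homotopy to the regular configurations, on ordered configurations -/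
noncomputable def flow (s : ℝ) (f : Fin (n + 1) → T1) (i : Fin (n + 1)) : T1 :=
  f i + ((s * disp f i : ℝ) : T1)

theorem flow_sub {s : ℝ} {f : Fin (n + 1) → T1} (hf : Function.Injective f) {i j : Fin (n + 1)}
    (hij : i ≠ j) : ∃ a : ℕ, 0 < a ∧ a < n + 1 ∧
      flow s f j - flow s f i =
        (((1 - s) * rep (f j - f i) + s * ((a : ℝ) / (n + 1 : ℕ)) : ℝ) : T1) := by
  obtain ⟨a, ha0, ha1, ha⟩ := disp_sub hf hij
  refine ⟨a, ha0, ha1, ?_⟩
  unfold flow
  have h1 : f j + ((s * disp f j : ℝ) : T1) - (f i + ((s * disp f i : ℝ) : T1)) =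
      (f j - f i) + (((s * disp f j : ℝ) : T1) - ((s * disp f i : ℝ) : T1)) := by abel
  rw [h1, ← AddCircle.coe_sub]
  nth_rewrite 1 [← coe_rep (f j - f i)]
  rw [← AddCircle.coe_add]
  congr 1
  have h2 : s * disp f j - s * disp f i = s * (disp f j - disp f i) := by ring
  rw [h2, ha]
  ring

theorem flow_injective {s : ℝ} (hs0 : 0 ≤ s) (hs1 : s ≤ 1) {f : Fin (n + 1) → T1}
    (hf : Function.Injective f) : Function.Injective (flow s f) := by
  intro i j hij
  by_contra hne
  obtain ⟨a, ha0, ha1, ha⟩ := flow_sub (s := s) hf hne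
  rw [hij, sub_self] at ha
  have hn : (0 : ℝ) < ((n + 1 : ℕ) : ℝ) := by exact_mod_cast Nat.succ_pos n
  have h1 : 0 < (a : ℝ) / (n + 1 : ℕ) := div_pos (by exact_mod_cast ha0) hn
  have h2 : (a : ℝ) / (n + 1 : ℕ) < 1 := by
    rw [div_lt_one hn]; exact_mod_cast ha1
  have hz : f j - f i ≠ 0 := fun h => hne (hf (sub_eq_zero.1 h)).symm
  have h3 := rep_pos hz
  have h4 := rep_lt_one (f j - f i)
  apply coe_ne_zero _ _ ha.symm
  · rcases eq_or_lt_of_le hs0 with h | h
    · rw [← h]; linarith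
    · have h5 : 0 < s * ((a : ℝ) / (n + 1 : ℕ)) := mul_pos h h1
      have h6 : 0 ≤ (1 - s) * rep (f j - f i) := mul_nonneg (by linarith) h3.le
      linarith
  · rcases eq_or_lt_of_le hs0 with h | h
    · rw [← h]; linarith
    · have h5 : 0 < s * (1 - (a : ℝ) / (n + 1 : ℕ)) := mul_pos h (by linarith)
      have h6 : 0 ≤ (1 - s) * (1 - rep (f j - f i)) := mul_nonneg (by linarith) (by linarith)
      nlinarith

theorem nsmul_coe_div (a : ℕ) : (n + 1) • (((a : ℝ) / (n + 1 : ℕ) : ℝ) : T1) = 0 := by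
  rw [← AddCircle.coe_nsmul]
  have hn : ((n + 1 : ℕ) : ℝ) ≠ 0 := by exact_mod_cast Nat.succ_ne_zero n
  have : (n + 1) • ((a : ℝ) / (n + 1 : ℕ)) = (a : ℝ) := by
    rw [nsmul_eq_mul, mul_div_cancel₀ _ hn]
  rw [this, AddCircle.coe_eq_zero_iff]
  exact ⟨a, by simp⟩

theorem nsmul_flow_one {f : Fin (n + 1) → T1} (hf : Function.Injective f) (i j : Fin (n + 1)) :
    (n + 1) • flow 1 f i = (n + 1) • flow 1 f j := by
  by_cases hij : i = j
  · rw [hij]
  · obtain ⟨a, _, _, ha⟩ := flow_sub (s := 1) hf hij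
    have h1 : (1 - 1 : ℝ) * rep (f j - f i) + 1 * ((a : ℝ) / (n + 1 : ℕ)) =
        (a : ℝ) / (n + 1 : ℕ) := by ring
    rw [h1] at ha
    have h2 : (n + 1) • (flow 1 f j - flow 1 f i) = 0 := by
      rw [ha, nsmul_coe_div]
    rw [nsmul_sub, sub_eq_zero] at h2
    exact h2.symm

theorem continuous_disp (i : Fin (n + 1)) :
    Continuous (fun f : OC (n + 1) T1 => disp f.1 i) := by
  unfold disp
  apply Continuous.div_const
  apply continuous_finsetSum
  intro j hj
  rw [Finset.mem_erase] at hj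
  apply Continuous.sub _ continuous_const
  rw [continuous_iff_continuousAt]
  intro f
  have hne : f.1 j - f.1 i ≠ 0 := fun h => hj.1 (f.2 (sub_eq_zero.1 h))
  have h1 : ContinuousAt (fun f : OC (n + 1) T1 => f.1 j - f.1 i) f := by
    apply Continuous.continuousAt
    exact ((continuous_apply j).comp continuous_subtype_val).sub
      ((continuous_apply i).comp continuous_subtype_val)
  exact ContinuousAt.comp (f := fun f : OC (n + 1) T1 => f.1 j - f.1 i) (continuousAt_rep hne) h1

/-- the flow on ordered configurations -/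
noncomputable def flowC (n : ℕ) : C(unitInterval × OC (n + 1) T1, OC (n + 1) T1) where
  toFun x := ⟨flow (x.1 : ℝ) x.2.1, flow_injective x.1.2.1 x.1.2.2 x.2.2⟩
  continuous_toFun := by
    apply Continuous.subtype_mk
    apply continuous_pi
    intro i
    unfold flow
    apply Continuous.add
    · exact (continuous_apply i).comp (continuous_subtype_val.comp continuous_snd)
    · apply (AddCircle.continuous_mk' (1 : ℝ)).comp
      apply Continuous.mul
      · exact continuous_subtype_val.comp continuous_fst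
      · exact (continuous_disp i).comp continuous_snd

/-- the flow on unordered configurations -/
noncomputable def flowU (n : ℕ) : C(unitInterval × UC (n + 1) T1, UC (n + 1) T1) where
  toFun x := Quot.lift (fun f : OC (n + 1) T1 => uc (flowC n (x.1, f))) (by
    rintro f g ⟨τ, hτ⟩
    have : g = relab f τ := Subtype.ext hτ
    subst this
    have h1 : flowC n (x.1, relab f τ) = relab (flowC n (x.1, f)) τ := by
      apply Subtype.ext
      funext i
      show f.1 (τ i) + (((x.1 : ℝ) * disp (f.1 ∘ τ) i : ℝ) : T1) =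
        f.1 (τ i) + (((x.1 : ℝ) * disp f.1 (τ i) : ℝ) : T1)
      rw [disp_perm]
    show uc (flowC n (x.1, f)) = uc (flowC n (x.1, relab f τ))
    rw [h1, uc_relab]) x.2
  continuous_toFun := by
    have hq : IsOpenQuotientMap (uc : OC (n + 1) T1 → UC (n + 1) T1) :=
      IsOpenQuotientMap.iff_isOpenMap_isQuotientMap.2 ⟨isOpenMap_uc _, isQuotientMap_quot_mk⟩
    have hq2 : IsOpenQuotientMap (Prod.map id uc :
        unitInterval × OC (n + 1) T1 → unitInterval × UC (n + 1) T1) :=
      IsOpenQuotientMap.prodMap .id hq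
    rw [← hq2.continuous_comp_iff]
    exact continuous_uc.comp (flowC n).continuous

/-- the regular configuration over a point of the circle -/
noncomputable def regO (n : ℕ) (t : ℝ) : OC (n + 1) T1 :=
  ⟨fun i => (((t + (i : ℕ)) / (n + 1 : ℕ) : ℝ) : T1), by
    have hn : (0 : ℝ) < ((n + 1 : ℕ) : ℝ) := by exact_mod_cast Nat.succ_pos n
    have key : ∀ i j : Fin (n + 1), i < j →
        (((t + (i : ℕ)) / (n + 1 : ℕ) : ℝ) : T1) ≠ (((t + (j : ℕ)) / (n + 1 : ℕ) : ℝ) : T1) := by
      intro i j hij h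
      have h1 : (((((j : ℕ) : ℝ) - (i : ℕ)) / (n + 1 : ℕ) : ℝ) : T1) = 0 := by
        have h2 : (((j : ℕ) : ℝ) - (i : ℕ)) / (n + 1 : ℕ) =
          (t + (j : ℕ)) / (n + 1 : ℕ) - (t + (i : ℕ)) / (n + 1 : ℕ) := by
          rw [← sub_div]; congr 1; ring
        rw [h2, AddCircle.coe_sub, h, sub_self]
      have h3 : ((i : ℕ) : ℝ) < (j : ℕ) := by exact_mod_cast hij
      have h4 : ((j : ℕ) : ℝ) < (n + 1 : ℕ) := by exact_mod_cast j.2
      have h5 : (0 : ℝ) ≤ ((i : ℕ) : ℝ) := Nat.cast_nonneg _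
      apply coe_ne_zero _ _ h1
      · apply div_pos _ hn; linarith
      · rw [div_lt_one hn]; linarith
    intro i j h
    rcases lt_trichotomy i j with h1 | h1 | h1
    · exact absurd h (key i j h1)
    · exact h1
    · exact absurd h.symm (key j i h1)⟩

theorem continuous_regO (n : ℕ) : Continuous (regO n) := by
  apply Continuous.subtype_mk
  apply continuous_pi
  intro i
  apply (AddCircle.continuous_mk' (1 : ℝ)).comp
  fun_prop

/-- every `(n+1)`-st part of `z` occurs in the regular configuration -/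
theorem exists_regO {t : ℝ} {w : T1} (hw : (n + 1) • w = (t : T1)) :
    ∃ i, (regO n t).1 i = w := by
  have hn : ((n + 1 : ℕ) : ℝ) ≠ 0 := by exact_mod_cast Nat.succ_ne_zero n
  have h1 : (((n + 1 : ℕ) * rep w - t : ℝ) : T1) = 0 := by
    rw [AddCircle.coe_sub, sub_eq_zero, ← hw]
    have : (((n + 1 : ℕ) : ℝ) * rep w) = (n + 1) • rep w := by rw [nsmul_eq_mul]
    rw [this, AddCircle.coe_nsmul, coe_rep]
  obtain ⟨k, hk⟩ := (AddCircle.coe_eq_zero_iff (1 : ℝ)).1 h1
  -- `(n+1) * rep w = t + k`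
  have hk' : ((n + 1 : ℕ) : ℝ) * rep w = t + k := by
    have : (k : ℝ) = ((n + 1 : ℕ) : ℝ) * rep w - t := by rw [← hk]; simp
    linarith
  have hpos : (0 : ℤ) < ((n + 1 : ℕ) : ℤ) := by exact_mod_cast Nat.succ_pos n
  let r : ℤ := k % ((n + 1 : ℕ) : ℤ)
  have hr0 : 0 ≤ r := Int.emod_nonneg _ hpos.ne'
  have hr1 : r < ((n + 1 : ℕ) : ℤ) := Int.emod_lt_of_pos _ hpos
  have hrk : k = r + ((n + 1 : ℕ) : ℤ) * (k / ((n + 1 : ℕ) : ℤ)) := (Int.emod_add_mul_ediv k _).symm
  have hrn : ((r.toNat : ℕ) : ℤ) = r := Int.toNat_of_nonneg hr0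
  refine ⟨⟨r.toNat, by omega⟩, ?_⟩
  show (((t + ((r.toNat : ℕ) : ℝ)) / (n + 1 : ℕ) : ℝ) : T1) = w
  have h2 : rep w = (t + ((r.toNat : ℕ) : ℝ)) / (n + 1 : ℕ) +
      ((k / ((n + 1 : ℕ) : ℤ) : ℤ) : ℝ) := by
    rw [eq_comm, div_add' _ _ _ hn, div_eq_iff hn, mul_comm (rep w), hk']
    have h3 : (k : ℝ) = (r : ℝ) + ((n + 1 : ℕ) : ℝ) * ((k / ((n + 1 : ℕ) : ℤ) : ℤ) : ℝ) := by
      have := congrArg (fun x : ℤ => (x : ℝ)) hrk
      push_cast at this ⊢
      exact this
    have h4 : ((r.toNat : ℕ) : ℝ) = (r : ℝ) := by exact_mod_cast congrArg (fun x : ℤ => (x : ℝ)) hrn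
    rw [h4, h3]
    ring
  conv_rhs => rw [← coe_rep w, h2, AddCircle.coe_add]
  have h5 : (((k / ((n + 1 : ℕ) : ℤ) : ℤ) : ℝ) : T1) = 0 := by
    rw [AddCircle.coe_eq_zero_iff]
    exact ⟨k / ((n + 1 : ℕ) : ℤ), by simp⟩
  rw [h5, add_zero]

theorem nsmul_regO (t : ℝ) (i : Fin (n + 1)) : (n + 1) • (regO n t).1 i = (t : T1) := by
  show (n + 1) • (((t + (i : ℕ)) / (n + 1 : ℕ) : ℝ) : T1) = _
  have hn : ((n + 1 : ℕ) : ℝ) ≠ 0 := by exact_mod_cast Nat.succ_ne_zero n
  rw [← AddCircle.coe_nsmul, nsmul_eq_mul, mul_div_cancel₀ _ hn, AddCircle.coe_add]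
  have : (((i : ℕ) : ℝ) : T1) = 0 := by
    rw [AddCircle.coe_eq_zero_iff]
    exact ⟨(i : ℕ), by simp⟩
  rw [this, add_zero]

/-- a configuration all of whose points have the same multiple is the regular one -/
theorem uc_eq_regO {t : ℝ} (f : OC (n + 1) T1) (hf : ∀ i, (n + 1) • f.1 i = (t : T1)) :
    uc f = uc (regO n t) := by
  choose τ hτ using fun i => exists_regO (hf i)
  have hinj : Function.Injective τ := by
    intro i j h
    apply f.2
    rw [← hτ i, ← hτ j, h]
  have hbij : Function.Bijective τ := Finite.injective_iff_bijective.1 hinj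
  have : f = relab (regO n t) (Equiv.ofBijective τ hbij) := by
    apply Subtype.ext
    funext i
    exact (hτ i).symm
  rw [this, uc_relab]

/-- the regular configurations, as a map from the circle -/
noncomputable def regU (n : ℕ) : C(T1, UC (n + 1) T1) where
  toFun := Function.Periodic.lift (f := fun t : ℝ => uc (regO n t)) (c := 1) (by
    intro t
    show uc (regO n (t + 1)) = uc (regO n t)
    apply uc_eq_regO
    intro i
    rw [nsmul_regO, AddCircle.coe_add, AddCircle.coe_period, add_zero])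
  continuous_toFun := by
    have h1 : Continuous (fun t : ℝ => uc (regO n t)) := continuous_uc.comp (continuous_regO n)
    exact continuous_quot_lift _ h1

theorem regU_coe (t : ℝ) : regU n (t : T1) = uc (regO n t) := rfl

/-- the map to the circle -/
noncomputable def mulU (n : ℕ) : C(UC (n + 1) T1, T1) where
  toFun := Quot.lift (fun f : OC (n + 1) T1 => (n + 1) • (flowC n (1, f)).1 0) (by
    rintro f g ⟨τ, hτ⟩
    have : g = relab f τ := Subtype.ext hτ
    subst this
    show (n + 1) • flow 1 f.1 0 = (n + 1) • flow 1 (f.1 ∘ τ) 0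
    have h1 : flow 1 (f.1 ∘ τ) 0 = flow 1 f.1 (τ 0) := by
      show f.1 (τ 0) + ((1 * disp (f.1 ∘ τ) 0 : ℝ) : T1) =
        f.1 (τ 0) + ((1 * disp f.1 (τ 0) : ℝ) : T1)
      rw [disp_perm]
    rw [h1]
    exact nsmul_flow_one f.2 _ _)
  continuous_toFun := by
    apply continuous_quot_lift
    apply Continuous.nsmul
    have h1 : Continuous (fun f : OC (n + 1) T1 => flowC n (1, f)) :=
      (flowC n).continuous.comp (by fun_prop)
    exact (continuous_apply 0).comp (continuous_subtype_val.comp h1)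

theorem regU_mulU (x : UC (n + 1) T1) : regU n (mulU n x) = flowU n (1, x) := by
  obtain ⟨f, rfl⟩ := Quot.exists_rep x
  show regU n ((n + 1) • (flowC n (1, f)).1 0) = uc (flowC n (1, f))
  set z : T1 := (n + 1) • (flowC n (1, f)).1 0 with hz
  rw [← coe_rep z, regU_coe]
  symm
  apply uc_eq_regO
  intro i
  rw [coe_rep, hz]
  exact nsmul_flow_one f.2 _ _

theorem piInj_mulU (n : ℕ) : PiInj (mulU n) := by
  apply PiInj.of_comp (g := regU n)
  apply PiInj.of_homotopic_id
  apply ContinuousMap.Homotopy.symm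
  refine ⟨flowU n, ?_, ?_⟩
  · intro x
    obtain ⟨f, rfl⟩ := Quot.exists_rep x
    show uc (flowC n (0, f)) = uc f
    congr 1
    apply Subtype.ext
    funext i
    show f.1 i + ((((0 : unitInterval) : ℝ) * disp f.1 i : ℝ) : T1) = f.1 i
    rw [show ((0 : unitInterval) : ℝ) = 0 from rfl, zero_mul, AddCircle.coe_zero, add_zero]
  · intro x
    exact (regU_mulU x).symm

/-- the sum of a configuration -/
noncomputable def sumU (n : ℕ) : C(UC (n + 1) T1, T1) where
  toFun := Quot.lift (fun f : OC (n + 1) T1 => ∑ i, f.1 i) (by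
    rintro f g ⟨τ, hτ⟩
    show ∑ i, f.1 i = ∑ i, g.1 i
    rw [hτ]
    exact (Equiv.sum_comp τ f.1).symm)
  continuous_toFun := by
    apply continuous_quot_lift
    apply continuous_finsetSum
    intro i _
    exact (continuous_apply i).comp continuous_subtype_val

theorem sumU_regU (z : T1) : sumU n (regU n z) = z + (((n : ℝ) / 2 : ℝ) : T1) := by
  rw [← coe_rep z, regU_coe]
  show ∑ i : Fin (n + 1), (((rep z + (i : ℕ)) / (n + 1 : ℕ) : ℝ) : T1) = _
  have hn : ((n + 1 : ℕ) : ℝ) ≠ 0 := by exact_mod_cast Nat.succ_ne_zero n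
  have h1 : ∑ i : Fin (n + 1), (((rep z + (i : ℕ)) / (n + 1 : ℕ) : ℝ) : T1) =
      ((∑ i : Fin (n + 1), (rep z + (i : ℕ)) / (n + 1 : ℕ) : ℝ) : T1) := by
    exact (map_sum (QuotientAddGroup.mk' (AddSubgroup.zmultiples (1 : ℝ))) _ _).symm
  rw [h1, ← AddCircle.coe_add]
  congr 1
  rw [← Finset.sum_div, Finset.sum_add_distrib, Finset.sum_const, Finset.card_univ,
    Fintype.card_fin, nsmul_eq_mul]
  have h2 : ∑ i : Fin (n + 1), ((i : ℕ) : ℝ) = (n : ℝ) * (n + 1) / 2 := by
    rw [Fin.sum_univ_eq_sum_range (fun i => (i : ℝ)) (n + 1)]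
    have := Finset.sum_range_id_mul_two (n + 1)
    have h3 : ((∑ i ∈ Finset.range (n + 1), i : ℕ) : ℝ) * 2 = ((n + 1 : ℕ) : ℝ) * n := by
      exact_mod_cast this
    push_cast at h3 ⊢
    linarith
  rw [h2]
  push_cast
  push_cast at hn
  field_simp

theorem piInj_regU (n : ℕ) : PiInj (regU n) := by
  apply PiInj.of_comp (g := sumU n)
  have : (sumU n).comp (regU n) = (⟨Homeomorph.addRight (((n : ℝ) / 2 : ℝ) : T1),
      (Homeomorph.addRight (((n : ℝ) / 2 : ℝ) : T1)).continuous⟩ : C(T1, T1)) := by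
    ext z
    exact sumU_regU z
  rw [this]
  exact PiInj.homeomorph _

end

/-- the map on unordered configurations induced by an injective map -/
def mapU {Y Z : Type} [TopologicalSpace Y] [TopologicalSpace Z] (n : ℕ) (h : C(Y, Z))
    (hinj : Function.Injective h) : C(UC n Y, UC n Z) where
  toFun := Quot.lift (fun f : OC n Y => uc ⟨h ∘ f.1, hinj.comp f.2⟩) (by
    rintro f g ⟨τ, hτ⟩
    apply Quot.sound
    refine ⟨τ, ?_⟩
    show h ∘ g.1 = (h ∘ f.1) ∘ τ
    rw [hτ]; rfl)
  continuous_toFun := by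
    apply continuous_quot_lift
    apply continuous_uc.comp
    apply Continuous.subtype_mk
    apply continuous_pi
    intro i
    exact h.continuous.comp ((continuous_apply i).comp continuous_subtype_val)

theorem piInj_mapU {Y Z : Type} [TopologicalSpace Y] [TopologicalSpace Z] (n : ℕ) (h : Y ≃ₜ Z) :
    PiInj (mapU n ⟨h, h.continuous⟩ h.injective) := by
  apply PiInj.of_comp (g := mapU n ⟨h.symm, h.symm.continuous⟩ h.symm.injective)
  have : (mapU n ⟨h.symm, h.symm.continuous⟩ h.symm.injective).comp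
      (mapU n ⟨h, h.continuous⟩ h.injective) = ContinuousMap.id _ := by
    ext x
    obtain ⟨f, rfl⟩ := Quot.exists_rep x
    show uc _ = uc f
    congr 1
    apply Subtype.ext
    funext i
    exact h.symm_apply_apply (f.1 i)
  rw [this]
  exact PiInj.id

/-- **Circle theorem.** -/
theorem circle_exists_piInj {Y : Type} [TopologicalSpace Y] (h : Y ≃ₜ T1) (m n : ℕ) :
    ∃ F : C(UC (m + 1) Y, UC (n + 1) Y), PiInj F :=
  ⟨(mapU (n + 1) ⟨h.symm, h.symm.continuous⟩ h.symm.injective).comp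
    ((regU n).comp ((mulU m).comp (mapU (m + 1) ⟨h, h.continuous⟩ h.injective))),
    (piInj_mapU (n + 1) h.symm).comp ((piInj_regU n).comp ((piInj_mulU m).comp
      (piInj_mapU (m + 1) h)))⟩

end Pool.Agent.Helper14.GB
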