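import Pool.Agent.Helper14.GB.Pi

/-! Configuration spaces, the covering `OC n Y → UC n Y`, and the section lemma. -/

set_option autoImplicit false

open Topology
open scoped unitInterval

namespace Pool.Agent.Helper14.GB

variable {Y : Type}

/-- ordered configurations -/
abbrev OC (n : ℕ) (Y : Type) : Type := {f : Fin n → Y // Function.Injective f}

/-- unordered configurations -/
abbrev UC (n : ℕ) (Y : Type) : Type :=
  Quot (fun f g : {f : Fin n → Y // Function.Injective f} =>
    ∃ ς : Equiv.Perm (Fin n), g.1 = f.1 ∘ ς)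

/-- the class of an ordered configuration -/
abbrev uc {n : ℕ} (f : OC n Y) : UC n Y :=
  Quot.mk (fun f g : {f : Fin n → Y // Function.Injective f} =>
    ∃ ς : Equiv.Perm (Fin n), g.1 = f.1 ∘ ς) f

/-- relabelling -/
def relab {n : ℕ} (f : OC n Y) (ς : Equiv.Perm (Fin n)) : OC n Y :=
  ⟨f.1 ∘ ς, f.2.comp ς.injective⟩

/-- the action of the symmetric group -/
@[reducible] def actOC (n : ℕ) (Y : Type) : MulAction (Equiv.Perm (Fin n)) (OC n Y) where
  smul ς f := relab f ς⁻¹
  one_smul f := by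
    apply Subtype.ext
    show f.1 ∘ ⇑(1 : Equiv.Perm (Fin n))⁻¹ = f.1
    rw [inv_one]
    rfl
  mul_smul ς τ f := by
    apply Subtype.ext
    show f.1 ∘ ⇑(ς * τ)⁻¹ = (f.1 ∘ ⇑τ⁻¹) ∘ ⇑ς⁻¹
    rw [mul_inv_rev, Equiv.Perm.coe_mul, Function.comp_assoc]

theorem uc_relab {n : ℕ} (f : OC n Y) (ς : Equiv.Perm (Fin n)) : uc (relab f ς) = uc f :=
  (Quot.sound ⟨ς, rfl⟩).symm

theorem uc_eq_iff {n : ℕ} (f g : OC n Y) : uc f = uc g ↔ ∃ ς : Equiv.Perm (Fin n), g = relab f ς := by
  constructor
  · intro h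
    have h' := Quot.eqvGen_exact h
    induction h' with
    | rel x y hxy =>
      obtain ⟨ς, hς⟩ := hxy
      exact ⟨ς, Subtype.ext hς⟩
    | refl x => exact ⟨1, Subtype.ext rfl⟩
    | symm x y _ ih =>
      obtain ⟨ς, hς⟩ := ih (by rw [h])
      refine ⟨ς⁻¹, ?_⟩
      rw [hς]
      apply Subtype.ext
      show x.1 = (x.1 ∘ ς) ∘ ⇑ς⁻¹
      rw [Function.comp_assoc]
      simp
    | trans x y z hxy hyz ih1 ih2 =>
      obtain ⟨ς, hς⟩ := ih1 (Quot.eqvGen_sound hxy)
      obtain ⟨τ, hτ⟩ := ih2 (Quot.eqvGen_sound hyz)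
      refine ⟨ς * τ, ?_⟩
      rw [hτ, hς]
      apply Subtype.ext
      show (x.1 ∘ ς) ∘ τ = x.1 ∘ ⇑(ς * τ)
      rw [Equiv.Perm.coe_mul, Function.comp_assoc]
  · rintro ⟨ς, rfl⟩
    exact (uc_relab f ς).symm

section top

variable [TopologicalSpace Y]

theorem continuous_uc {n : ℕ} : Continuous (uc : OC n Y → UC n Y) := continuous_quot_mk

theorem continuous_relab {n : ℕ} (ς : Equiv.Perm (Fin n)) :
    Continuous (fun f : OC n Y => relab f ς) := by
  apply Continuous.subtype_mk
  apply continuous_pi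
  intro i
  exact (continuous_apply (ς i)).comp continuous_subtype_val

theorem isQuotientCoveringMap_uc [T2Space Y] (n : ℕ) :
    let _ := actOC n Y
    IsQuotientCoveringMap (uc : OC n Y → UC n Y) (Equiv.Perm (Fin n)) := by
  let _ := actOC n Y
  have : ContinuousConstSMul (Equiv.Perm (Fin n)) (OC n Y) :=
    ⟨fun ς => continuous_relab ς⁻¹⟩
  refine { toIsQuotientMap := isQuotientMap_quot_mk, continuous_const_smul := fun ς => continuous_relab ς⁻¹, apply_eq_iff_mem_orbit := ?_, disjoint := ?_ }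
  · intro f g
    rw [uc_eq_iff]
    constructor
    · rintro ⟨ς, rfl⟩
      refine ⟨ς, ?_⟩
      apply Subtype.ext
      show (f.1 ∘ ς) ∘ ⇑ς⁻¹ = f.1
      rw [Function.comp_assoc]
      simp
    · rintro ⟨ς, rfl⟩
      refine ⟨ς, ?_⟩
      apply Subtype.ext
      show g.1 = (g.1 ∘ ⇑ς⁻¹) ∘ ς
      rw [Function.comp_assoc]
      simp
  · intro f
    obtain ⟨U, hU, hdisj⟩ := (Set.finite_range f.1).t2_separation
    refine ⟨{g : OC n Y | ∀ i, g.1 i ∈ U (f.1 i)}, ?_, ?_⟩
    · have h1 : {g : OC n Y | ∀ i, g.1 i ∈ U (f.1 i)} =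
          ⋂ i, (fun g : OC n Y => g.1 i) ⁻¹' (U (f.1 i)) := by
        ext g; simp
      rw [h1]
      apply (isOpen_iInter_of_finite _).mem_nhds
      · simp only [Set.mem_iInter, Set.mem_preimage]
        exact fun i => (hU (f.1 i)).1
      · intro i
        exact (hU (f.1 i)).2.preimage ((continuous_apply i).comp continuous_subtype_val)
    · rintro ς ⟨g, ⟨g', hg', hgg'⟩, hg⟩
      have h1 : ∀ i, ς⁻¹ i = i := by
        intro i
        by_contra hne
        have h2 : g.1 i ∈ U (f.1 i) := hg i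
        have h3 : g.1 i ∈ U (f.1 (ς⁻¹ i)) := by
          have h4 : g.1 i = g'.1 (ς⁻¹ i) := by
            rw [← hgg']; rfl
          rw [h4]
          exact hg' (ς⁻¹ i)
        have h5 := hdisj (Set.mem_range_self (ς⁻¹ i)) (Set.mem_range_self i)
          (fun h => hne (f.2 h))
        exact (Set.disjoint_left.1 h5) h3 h2
      have h2 : ς⁻¹ = 1 := Equiv.ext h1
      exact inv_eq_one.1 h2

theorem isCoveringMap_uc [T2Space Y] (n : ℕ) : IsCoveringMap (uc : OC n Y → UC n Y) := by
  let _ := actOC n Y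
  exact (isQuotientCoveringMap_uc n).isCoveringMap

theorem isOpenMap_uc [T2Space Y] (n : ℕ) : IsOpenMap (uc : OC n Y → UC n Y) :=
  (isCoveringMap_uc n).isOpenMap

/-- extend a permutation by fixing `0` -/
def extPerm {n : ℕ} (ς : Equiv.Perm (Fin n)) : Equiv.Perm (Fin (n + 1)) :=
  Equiv.Perm.decomposeFin.symm (0, ς)

theorem extPerm_zero {n : ℕ} (ς : Equiv.Perm (Fin n)) : extPerm ς 0 = 0 := by
  simp [extPerm]

theorem extPerm_succ {n : ℕ} (ς : Equiv.Perm (Fin n)) (i : Fin n) :
    extPerm ς i.succ = (ς i).succ := by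
  simp [extPerm]

/-- **Section lemma.** A symmetric continuous choice of an extra point which avoids `D f`, where
`D` is homotopic to the identity, gives an injection of braid groups. -/
theorem section_lemma [T2Space Y] {n : ℕ} (D : C(OC n Y, OC n Y)) (e : C(OC n Y, Y))
    (hDe : ∀ f i, (D f).1 i ≠ e f)
    (hD : ∀ f ς, D (relab f ς) = relab (D f) ς)
    (he : ∀ f ς, e (relab f ς) = e f)
    (H : ContinuousMap.Homotopy D (ContinuousMap.id _)) :
    ∃ F : C(UC n Y, UC (n + 1) Y), PiInj F := by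
  classical
  -- the map on ordered configurations
  let Fo : OC n Y → OC (n + 1) Y := fun f => ⟨Fin.cons (e f) (D f).1, by
    rw [Fin.cons_injective_iff]
    refine ⟨?_, (D f).2⟩
    rintro ⟨i, hi⟩
    exact hDe f i hi⟩
  have hFo_cont : Continuous Fo := by
    apply Continuous.subtype_mk
    apply continuous_pi
    intro i
    refine Fin.cases ?_ (fun i => ?_) i
    · exact e.continuous
    · exact (continuous_apply i).comp (continuous_subtype_val.comp D.continuous)
  let FoC : C(OC n Y, OC (n + 1) Y) := ⟨Fo, hFo_cont⟩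
  have hFo_relab : ∀ f ς, Fo (relab f ς) = relab (Fo f) (extPerm ς) := by
    intro f ς
    apply Subtype.ext
    funext i
    refine Fin.cases ?_ (fun i => ?_) i
    · show e (relab f ς) = (Fin.cons (e f) (D f).1 : Fin (n + 1) → Y) (extPerm ς 0)
      rw [extPerm_zero, he]; rfl
    · show (D (relab f ς)).1 i = (Fin.cons (e f) (D f).1 : Fin (n + 1) → Y) (extPerm ς i.succ)
      rw [extPerm_succ, hD]; rfl
  let F : UC n Y → UC (n + 1) Y := Quot.lift (fun f => uc (Fo f)) (by
    rintro f g ⟨ς, hς⟩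
    have : g = relab f ς := Subtype.ext hς
    subst this
    show uc (Fo f) = uc (Fo (relab f ς))
    rw [hFo_relab, uc_relab])
  have hF_cont : Continuous F := by
    exact continuous_quot_lift _ (continuous_uc.comp hFo_cont)
  refine ⟨⟨F, hF_cont⟩, ?_⟩
  -- forgetting the extra point
  let G : C(OC (n + 1) Y, OC n Y) := ⟨fun g => ⟨g.1 ∘ Fin.succ, g.2.comp (Fin.succ_injective n)⟩, by
    apply Continuous.subtype_mk
    apply continuous_pi
    intro i
    exact (continuous_apply i.succ).comp continuous_subtype_val⟩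
  have hGF : G.comp FoC = D := by
    ext f i
    rfl
  have hDinj : PiInj D := PiInj.of_homotopic_id H
  have hFoInj : PiInj FoC := by
    apply PiInj.of_comp (g := G)
    rw [hGF]
    exact hDinj
  intro x γ hγ
  obtain ⟨x₀, rfl⟩ := Quot.exists_rep x
  -- lift the loop
  have cov := isCoveringMap_uc (Y := Y) n
  have cov' := isCoveringMap_uc (Y := Y) (n + 1)
  let L : C(I, OC n Y) := cov.liftPath γ.toContinuousMap x₀ γ.source
  have hL0 : L 0 = x₀ := cov.liftPath_zero _ _ _
  have hL : ∀ t, uc (L t) = γ t := fun t => congrFun (cov.liftPath_lifts _ _ _) t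
  -- the end point of the lift
  have hL1 : L 1 = x₀ := by
    have h1 : uc (L 1) = uc x₀ := by rw [hL 1, γ.target]
    obtain ⟨ς, hς⟩ := (uc_eq_iff _ _).1 h1.symm
    -- compare end points of lifts in `OC (n+1) Y`
    have hrel : ContinuousMap.HomotopicRel
        (γ.map (f := F) hF_cont).toContinuousMap
        (Path.refl (F (uc x₀))).toContinuousMap {0, 1} := hγ
    have h0 : (γ.map (f := F) hF_cont).toContinuousMap 0 = uc (Fo x₀) := by
      show F (γ 0) = _
      rw [γ.source]
    have h0' : (Path.refl (F (uc x₀))).toContinuousMap 0 = uc (Fo x₀) := rfl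
    have h2 := cov'.liftPath_apply_one_eq_of_homotopicRel hrel (Fo x₀) h0 h0'
    have h3 : FoC.comp L = cov'.liftPath (γ.map (f := F) hF_cont).toContinuousMap (Fo x₀) h0 := by
      rw [cov'.eq_liftPath_iff']
      refine ⟨?_, ?_⟩
      · funext t
        show uc (Fo (L t)) = F (γ t)
        rw [← hL t]
      · show Fo (L 0) = Fo x₀
        rw [hL0]
    have h4 : ContinuousMap.const I (Fo x₀) =
        cov'.liftPath (Path.refl (F (uc x₀))).toContinuousMap (Fo x₀) h0' := by
      rw [cov'.eq_liftPath_iff']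
      refine ⟨?_, rfl⟩
      funext t
      rfl
    rw [← h3, ← h4] at h2
    have h5 : Fo (L 1) = Fo x₀ := h2
    rw [hς, hFo_relab] at h5
    have h6 : extPerm ς = 1 := by
      apply Equiv.ext
      intro i
      have := congrFun (congrArg Subtype.val h5) i
      exact (Fo x₀).2 this
    rw [hς]
    apply Subtype.ext
    funext i
    have h7 : (ς i).succ = i.succ := by
      rw [← extPerm_succ, h6]; rfl
    show x₀.1 (ς i) = x₀.1 i
    rw [Fin.succ_injective _ h7]
  let Lp : Path x₀ x₀ := ⟨L, hL0, hL1⟩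
  have hLp : Lp.map continuous_uc = γ := by
    ext t
    exact hL t
  have hkey : Lp.Homotopic (Path.refl x₀) := by
    apply hFoInj
    apply PiInj.covering cov'
    have h8 : ((Lp.map FoC.continuous).map cov'.continuous) = γ.map hF_cont := by
      ext t
      show uc (Fo (L t)) = F (γ t)
      rw [← hL t]
    have h9 : ((Lp.map FoC.continuous).map
        (ContinuousMap.continuous (⟨uc, cov'.continuous⟩ : C(OC (n+1) Y, UC (n+1) Y)))).Homotopic
          (Path.refl _) := by
      show ((Lp.map FoC.continuous).map cov'.continuous).Homotopic (Path.refl _)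
      rw [h8]
      exact hγ
    exact h9
  rw [← hLp]
  have := hkey.map (⟨uc, continuous_uc⟩ : C(OC n Y, UC n Y))
  exact this

end top

end Pool.Agent.Helper14.GB
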