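import Pool.Agent.Helper14.GB.Branch
import Pool.Agent.Helper14.GB.Leaf
import Pool.Agent.Helper14.GB.PathConn

/-! Topological graphs: edges with characteristic maps `[-1, 1] → Y` and the weak topology. -/

set_option autoImplicit false

open Topology Set

namespace Pool.Agent.Helper14.GB

/-- A topological graph. The characteristic maps are defined on `ℝ`, constant outside `[-1, 1]`. -/
structure GraphData (Y : Type) [TopologicalSpace Y] where
  E : Type
  chi : E → C(ℝ, Y)
  clamp_right : ∀ e t, 1 ≤ t → chi e t = chi e 1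
  clamp_left : ∀ e t, t ≤ -1 → chi e t = chi e (-1)
  inj : ∀ e e' t t', |t| < 1 → |t'| < 1 → chi e t = chi e' t' → e = e' ∧ t = t'
  vert : ∀ e e' t t', |t| < 1 → (t' = 1 ∨ t' = -1) → chi e t ≠ chi e' t'
  weak : ∀ A : Set Y, (∀ e, IsClosed (chi e ⁻¹' A)) → IsClosed A

/-- sign of an orientation -/
noncomputable def sg (b : Bool) : ℝ := if b then 1 else -1

theorem sg_true : sg true = 1 := rfl

theorem sg_false : sg false = -1 := by simp [sg]

theorem sg_not (b : Bool) : sg (!b) = - sg b := by
  cases b <;> simp [sg]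

theorem sg_abs (b : Bool) : |sg b| = 1 := by
  cases b <;> simp [sg]

theorem sg_mul_self (b : Bool) : sg b * sg b = 1 := by
  cases b <;> simp [sg]

theorem sg_eq (b : Bool) : sg b = 1 ∨ sg b = -1 := by
  cases b <;> simp [sg]

theorem sg_inj {b b' : Bool} (h : sg b = sg b') : b = b' := by
  cases b <;> cases b' <;> simp [sg] at h ⊢ <;> norm_num at h

namespace GraphData

variable {Y : Type} [TopologicalSpace Y] (G : GraphData Y)

theorem isOpen_of (A : Set Y) (h : ∀ e, IsOpen (G.chi e ⁻¹' A)) : IsOpen A := by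
  rw [← isClosed_compl_iff]
  apply G.weak
  intro e
  rw [preimage_compl, isClosed_compl_iff]
  exact h e

theorem continuous_of {Z : Type} [TopologicalSpace Z] (g : Y → Z)
    (h : ∀ e, Continuous (g ∘ G.chi e)) : Continuous g := by
  rw [continuous_def]
  intro U hU
  apply G.isOpen_of
  intro e
  exact hU.preimage (h e)

theorem chi_clamp (e : G.E) (t : ℝ) : G.chi e t = G.chi e (max (-1) (min t 1)) := by
  rcases le_total t 1 with h | h
  · rcases le_total (-1) t with h' | h'
    · rw [min_eq_left h, max_eq_right h']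
    · rw [min_eq_left h, max_eq_left h', G.clamp_left e t h']
  · rw [min_eq_right h, max_eq_right (by norm_num), G.clamp_right e t h]

theorem abs_lt_of_mem {e e' : G.E} {t t' : ℝ} (ht' : |t'| < 1) (h : G.chi e t = G.chi e' t') :
    |t| < 1 := by
  by_contra hcon
  push Not at hcon
  rcases le_abs.1 hcon with h1 | h1
  · rw [G.clamp_right e t h1] at h
    exact G.vert e' e t' 1 ht' (Or.inl rfl) h.symm
  · rw [G.clamp_left e t (by linarith)] at h
    exact G.vert e' e t' (-1) ht' (Or.inr rfl) h.symm

/-- images of open subsets of the open edges are open -/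
theorem isOpen_image (e : G.E) (O : Set ℝ) (hO : IsOpen O) (hO1 : ∀ t ∈ O, |t| < 1) :
    IsOpen (G.chi e '' O) := by
  apply G.isOpen_of
  intro e'
  by_cases he : e' = e
  · subst he
    have : G.chi e' ⁻¹' (G.chi e' '' O) = O := by
      ext t
      constructor
      · rintro ⟨s, hs, hst⟩
        have h1 := G.abs_lt_of_mem (hO1 s hs) hst.symm
        rw [(G.inj e' e' s t (hO1 s hs) h1 hst).2] at hs
        exact hs
      · intro ht
        exact ⟨t, ht, rfl⟩
    rw [this]
    exact hO
  · have : G.chi e' ⁻¹' (G.chi e '' O) = ∅ := by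
      ext t
      simp only [mem_preimage, mem_image, mem_empty_iff_false, iff_false, not_exists, not_and]
      intro s hs hst
      have h1 := G.abs_lt_of_mem (hO1 s hs) hst.symm
      exact he (G.inj e e' s t (hO1 s hs) h1 hst).1.symm
    rw [this]
    exact isOpen_empty

/-- every edge is an open arc -/
def arc (e : G.E) : ArcData Y where
  c := G.chi e
  inj s t hs ht h := (G.inj e e s t hs ht h).2
  endp s t hs ht := G.vert e e s t hs ht
  isOpen := G.isOpen_image e _ isOpen_Ioo (fun t ht => abs_lt.2 ht)

/-- a set all of whose preimages are empty or everything is clopen -/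
theorem isClopen_of (A : Set Y) (h : ∀ e, G.chi e ⁻¹' A = ∅ ∨ G.chi e ⁻¹' A = univ) :
    IsClopen A := by
  constructor
  · apply G.weak
    intro e
    rcases h e with h | h <;> rw [h]
    · exact isClosed_empty
    · exact isClosed_univ
  · apply G.isOpen_of
    intro e
    rcases h e with h | h <;> rw [h]
    · exact isOpen_empty
    · exact isOpen_univ

include G in
theorem pathConnectedSpace [ConnectedSpace Y] : PathConnectedSpace Y := by
  obtain ⟨y₀⟩ := (inferInstance : Nonempty Y)
  have h1 : IsClopen {y | Joined y₀ y} := by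
    apply G.isClopen_of
    intro e
    by_cases h : ∃ t, Joined y₀ (G.chi e t)
    · right
      obtain ⟨t, ht⟩ := h
      ext s
      simp only [mem_preimage, mem_univ, iff_true]
      have h2 : Joined (G.chi e t) (G.chi e s) := by
        obtain ⟨p⟩ := PathConnectedSpace.joined t s
        exact ⟨p.map (G.chi e).continuous⟩
      exact ht.trans h2
    · left
      push Not at h
      ext s
      simp only [mem_preimage, mem_empty_iff_false, iff_false]
      exact h s
  have h2 := h1.eq_univ ⟨y₀, Joined.refl y₀⟩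
  have h3 : ∀ y, Joined y₀ y := fun y => by
    have : y ∈ {y | Joined y₀ y} := by rw [h2]; exact mem_univ y
    exact this
  exact ⟨⟨y₀⟩, fun x y => (h3 x).symm.trans (h3 y)⟩

/-- half-edges -/
abbrev H : Type := G.E × Bool

/-- the end point of a half-edge -/
noncomputable def endp (h : G.H) : Y := G.chi h.1 (sg h.2)

open Classical in
/-- the distance to `v` on the edge `e` -/
noncomputable def rhoHat (v : Y) (e : G.E) (t : ℝ) : ℝ :=
  min 1 (min (if G.chi e 1 = v then max (1 - t) 0 else 1)
    (if G.chi e (-1) = v then max (1 + t) 0 else 1))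

theorem continuous_rhoHat (v : Y) (e : G.E) : Continuous (G.rhoHat v e) := by
  unfold rhoHat
  apply Continuous.min continuous_const
  apply Continuous.min
  · split_ifs
    · fun_prop
    · exact continuous_const
  · split_ifs
    · fun_prop
    · exact continuous_const

theorem rhoHat_nonneg (v : Y) (e : G.E) (t : ℝ) : 0 ≤ G.rhoHat v e t := by
  unfold rhoHat
  apply le_min zero_le_one
  apply le_min
  · split_ifs
    · exact le_max_right _ _
    · exact zero_le_one
  · split_ifs
    · exact le_max_right _ _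
    · exact zero_le_one

theorem rhoHat_le_one (v : Y) (e : G.E) (t : ℝ) : G.rhoHat v e t ≤ 1 := min_le_left _ _

theorem rhoHat_pos (v : Y) (e : G.E) {t : ℝ} (ht : |t| < 1) : 0 < G.rhoHat v e t := by
  rw [abs_lt] at ht
  unfold rhoHat
  apply lt_min zero_lt_one
  apply lt_min
  · split_ifs
    · exact lt_max_of_lt_left (by linarith)
    · exact zero_lt_one
  · split_ifs
    · exact lt_max_of_lt_left (by linarith)
    · exact zero_lt_one

open Classical in
theorem rhoHat_right (v : Y) (e : G.E) {t : ℝ} (ht : 1 ≤ t) :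
    G.rhoHat v e t = if G.chi e 1 = v then 0 else 1 := by
  unfold rhoHat
  have h1 : (1 : ℝ) ≤ (if G.chi e (-1) = v then max (1 + t) 0 else 1) := by
    split_ifs
    · exact le_max_of_le_left (by linarith)
    · exact le_rfl
  by_cases h : G.chi e 1 = v
  · rw [if_pos h, if_pos h, max_eq_right (by linarith : 1 - t ≤ 0),
      min_eq_left (zero_le_one.trans h1), min_eq_right zero_le_one]
  · rw [if_neg h, if_neg h, min_eq_left h1, min_self]

open Classical in
theorem rhoHat_left (v : Y) (e : G.E) {t : ℝ} (ht : t ≤ -1) :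
    G.rhoHat v e t = if G.chi e (-1) = v then 0 else 1 := by
  unfold rhoHat
  have h1 : (1 : ℝ) ≤ (if G.chi e 1 = v then max (1 - t) 0 else 1) := by
    split_ifs
    · exact le_max_of_le_left (by linarith)
    · exact le_rfl
  by_cases h : G.chi e (-1) = v
  · rw [if_pos h, if_pos h, max_eq_right (by linarith : 1 + t ≤ 0),
      min_eq_right (zero_le_one.trans h1), min_eq_right zero_le_one]
  · rw [if_neg h, if_neg h, min_eq_right h1, min_self]

open Classical in
/-- the distance to `v` -/
noncomputable def rhoFun (v : Y) (y : Y) : ℝ :=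
  if h : ∃ p : G.E × ℝ, |p.2| < 1 ∧ G.chi p.1 p.2 = y then
    G.rhoHat v h.choose.1 h.choose.2
  else if y = v then 0 else 1

theorem rhoFun_of_open (v : Y) (e : G.E) {t : ℝ} (ht : |t| < 1) :
    G.rhoFun v (G.chi e t) = G.rhoHat v e t := by
  have h : ∃ p : G.E × ℝ, |p.2| < 1 ∧ G.chi p.1 p.2 = G.chi e t := ⟨(e, t), ht, rfl⟩
  unfold rhoFun
  rw [dif_pos h]
  have h1 := h.choose_spec
  have h2 := G.inj _ _ _ _ h1.1 ht h1.2
  rw [h2.2]
  congr 1
  exact h2.1

open Classical in
theorem rhoFun_of_not (v y : Y) (hy : ∀ e t, |t| < 1 → G.chi e t ≠ y) :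
    G.rhoFun v y = if y = v then 0 else 1 := by
  unfold rhoFun
  rw [dif_neg]
  rintro ⟨⟨e, t⟩, h1, h2⟩
  exact hy e t h1 h2

theorem rhoFun_chi (v : Y) (e : G.E) (t : ℝ) : G.rhoFun v (G.chi e t) = G.rhoHat v e t := by
  rcases lt_or_ge |t| 1 with h | h
  · exact G.rhoFun_of_open v e h
  · rcases le_abs.1 h with h1 | h1
    · rw [G.rhoHat_right v e h1, G.clamp_right e t h1]
      apply G.rhoFun_of_not
      intro e' t' ht'
      exact G.vert e' e t' 1 ht' (Or.inl rfl)
    · rw [G.rhoHat_left v e (by linarith), G.clamp_left e t (by linarith)]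
      apply G.rhoFun_of_not
      intro e' t' ht'
      exact G.vert e' e t' (-1) ht' (Or.inr rfl)

theorem rhoFun_mem (v y : Y) : G.rhoFun v y ∈ unitInterval := by
  unfold rhoFun
  split_ifs
  · exact ⟨G.rhoHat_nonneg _ _ _, G.rhoHat_le_one _ _ _⟩
  · exact ⟨le_rfl, zero_le_one⟩
  · exact ⟨zero_le_one, le_rfl⟩

/-- the distance to `v`, as a continuous map -/
noncomputable def rho (v : Y) : C(Y, unitInterval) where
  toFun y := ⟨G.rhoFun v y, G.rhoFun_mem v y⟩
  continuous_toFun := by
    apply Continuous.subtype_mk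
    apply G.continuous_of
    intro e
    have : G.rhoFun v ∘ G.chi e = G.rhoHat v e := by
      funext t
      exact G.rhoFun_chi v e t
    rw [this]
    exact G.continuous_rhoHat v e

theorem rho_coe (v y : Y) : ((G.rho v y : unitInterval) : ℝ) = G.rhoFun v y := rfl

theorem rho_eq_zero {v : Y} (hv : ∀ e t, |t| < 1 → G.chi e t ≠ v) (y : Y) :
    G.rho v y = 0 ↔ y = v := by
  constructor
  · intro h
    have h0 : G.rhoFun v y = 0 := congrArg Subtype.val h
    by_cases hy : ∃ e t, |t| < 1 ∧ G.chi e t = y
    · obtain ⟨e, t, ht, rfl⟩ := hy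
      rw [G.rhoFun_chi] at h0
      exact absurd h0 (G.rhoHat_pos v e ht).ne'
    · push Not at hy
      rw [G.rhoFun_of_not v y hy] at h0
      by_contra hne
      rw [if_neg hne] at h0
      exact one_ne_zero h0
  · rintro rfl
    apply Subtype.ext
    show G.rhoFun y y = 0
    rw [G.rhoFun_of_not y y hv, if_pos rfl]

/-- the arm of a half-edge -/
noncomputable def arm (h : G.H) : C(ℝ, Y) := (G.chi h.1).comp ⟨fun t => sg h.2 * (1 - t), by fun_prop⟩

theorem arm_apply (h : G.H) (t : ℝ) : G.arm h t = G.chi h.1 (sg h.2 * (1 - t)) := rfl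

theorem endp_not (h : G.H) : ∀ e t, |t| < 1 → G.chi e t ≠ G.endp h := by
  intro e t ht
  exact G.vert e h.1 t (sg h.2) ht (sg_eq h.2)

theorem rhoHat_of_right {v : Y} {e : G.E} (hv : G.chi e 1 = v) {t : ℝ} (h0 : 0 ≤ t)
    (h1 : t ≤ 1) : G.rhoHat v e (1 - t) = t := by
  unfold rhoHat
  rw [if_pos hv, sub_sub_cancel, max_eq_left h0]
  apply le_antisymm
  · exact (min_le_right _ _).trans (min_le_left _ _)
  · refine le_min h1 (le_min le_rfl ?_)
    split_ifs
    · exact le_max_of_le_left (by linarith)
    · exact h1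

theorem rhoHat_of_left {v : Y} {e : G.E} (hv : G.chi e (-1) = v) {t : ℝ} (h0 : 0 ≤ t)
    (h1 : t ≤ 1) : G.rhoHat v e (t - 1) = t := by
  unfold rhoHat
  rw [if_pos hv, add_sub_cancel, max_eq_left h0]
  apply le_antisymm
  · exact (min_le_right _ _).trans (min_le_right _ _)
  · refine le_min h1 (le_min ?_ le_rfl)
    split_ifs
    · exact le_max_of_le_left (by linarith)
    · exact h1

theorem rho_arm (h : G.H) {t : ℝ} (h0 : 0 ≤ t) (h1 : t ≤ 1) :
    ((G.rho (G.endp h) (G.arm h t) : unitInterval) : ℝ) = t := by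
  rw [rho_coe, arm_apply, rhoFun_chi]
  obtain ⟨e, b⟩ := h
  cases b
  · have h2 : sg ((e, false) : G.H).2 * (1 - t) = t - 1 := by
      show sg false * (1 - t) = t - 1
      rw [sg_false]; ring
    rw [h2]
    apply G.rhoHat_of_left _ h0 h1
    show G.chi e (-1) = G.chi e (sg false)
    rw [sg_false]
  · have h2 : sg ((e, true) : G.H).2 * (1 - t) = 1 - t := by
      show sg true * (1 - t) = 1 - t
      rw [sg_true]; ring
    rw [h2]
    apply G.rhoHat_of_right _ h0 h1
    show G.chi e 1 = G.chi e (sg true)
    rw [sg_true]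

theorem arm_ne {h h' : G.H} (hne : h ≠ h') {t : ℝ} (h0 : 0 < t) (h1 : t < 1) :
    G.arm h t ≠ G.arm h' t := by
  intro heq
  rw [arm_apply, arm_apply] at heq
  have habs : ∀ b, |sg b * (1 - t)| < 1 := by
    intro b
    rw [abs_mul, sg_abs, one_mul, abs_of_pos (by linarith)]
    linarith
  obtain ⟨h2, h3⟩ := G.inj _ _ _ _ (habs _) (habs _) heq
  have h4 : sg h.2 = sg h'.2 := mul_right_cancel₀ (by linarith : (1 - t) ≠ 0) h3
  exact hne (Prod.ext h2 (sg_inj h4))

/-- three half-edges at the same vertex -/
noncomputable def branch (h0 h1 h2 : G.H) (h01 : h0 ≠ h1) (h02 : h0 ≠ h2) (h12 : h1 ≠ h2)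
    (e01 : G.endp h1 = G.endp h0) (e02 : G.endp h2 = G.endp h0) : Branch Y where
  rho := G.rho (G.endp h0)
  v := G.endp h0
  rho_eq := G.rho_eq_zero (G.endp_not h0)
  a0 := G.arm h0
  a1 := G.arm h1
  a2 := G.arm h2
  r0 t ht0 ht1 := G.rho_arm h0 ht0 ht1
  r1 t ht0 ht1 := by rw [← e01]; exact G.rho_arm h1 ht0 ht1
  r2 t ht0 ht1 := by rw [← e02]; exact G.rho_arm h2 ht0 ht1
  ne01 t ht0 ht1 := G.arm_ne h01 ht0 ht1
  ne02 t ht0 ht1 := G.arm_ne h02 ht0 ht1
  ne12 t ht0 ht1 := G.arm_ne h12 ht0 ht1
  open0 := by
    have : G.arm h0 '' Ioo 0 1 = G.chi h0.1 '' ((fun x => sg h0.2 * x) ⁻¹' Ioo 0 1) := by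
      ext y
      constructor
      · rintro ⟨t, ht, rfl⟩
        refine ⟨sg h0.2 * (1 - t), ?_, rfl⟩
        simp only [mem_preimage]
        rw [← mul_assoc, sg_mul_self, one_mul]
        exact ⟨by linarith [ht.2], by linarith [ht.1]⟩
      · rintro ⟨x, hx, rfl⟩
        simp only [mem_preimage] at hx
        refine ⟨1 - sg h0.2 * x, ⟨by linarith [hx.2], by linarith [hx.1]⟩, ?_⟩
        rw [arm_apply]
        congr 1
        rw [sub_sub_cancel, ← mul_assoc, sg_mul_self, one_mul]
    rw [this]
    apply G.isOpen_image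
    · exact isOpen_Ioo.preimage (by fun_prop)
    · intro t ht
      simp only [mem_preimage] at ht
      have h1 : |sg h0.2 * t| < 1 := abs_lt.2 ⟨by linarith [ht.1], ht.2⟩
      rwa [abs_mul, sg_abs, one_mul] at h1

/-- a half-edge which is alone at its vertex -/
noncomputable def leaf (h : G.H) (hl : ∀ h', G.endp h' = G.endp h → h' = h) : LeafData Y where
  rho := G.rho (G.endp h)
  a := G.arm h
  r t ht0 ht1 := G.rho_arm h ht0 ht1
  cover := by
    intro y hy
    rw [rho_coe] at hy ⊢
    by_cases hex : ∃ e t, |t| < 1 ∧ G.chi e t = y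
    · obtain ⟨e, t, ht, rfl⟩ := hex
      rw [G.rhoFun_chi] at hy ⊢
      have habs := abs_lt.1 ht
      rw [arm_apply]
      -- one of the two ends of `e` is `h`
      by_cases h1 : G.chi e 1 = G.endp h
      · have h2 : ((e, true) : G.H) = h := hl (e, true) (by
          show G.chi e (sg true) = _
          rw [sg_true]; exact h1)
        have h3 : G.chi e (-1) ≠ G.endp h := by
          intro h4
          have h5 : ((e, false) : G.H) = h := hl (e, false) (by
            show G.chi e (sg false) = _
            rw [sg_false]; exact h4)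
          rw [← h2] at h5
          simp at h5
        unfold rhoHat at hy ⊢
        rw [if_pos h1, if_neg h3, max_eq_left (by linarith : (0 : ℝ) ≤ 1 - t)] at hy ⊢
        have h6 : 1 - t < 1 := by
          by_contra hcon
          push Not at hcon
          rw [min_eq_right hcon, min_self] at hy
          exact lt_irrefl _ hy
        rw [min_eq_left h6.le, min_eq_right h6.le]
        have h7 : h.1 = e := by rw [← h2]
        have h8 : h.2 = true := by rw [← h2]
        rw [h7, h8, sg_true]
        congr 1
        ring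
      · by_cases h3 : G.chi e (-1) = G.endp h
        · have h2 : ((e, false) : G.H) = h := hl (e, false) (by
            show G.chi e (sg false) = _
            rw [sg_false]; exact h3)
          unfold rhoHat at hy ⊢
          rw [if_neg h1, if_pos h3, max_eq_left (by linarith : (0 : ℝ) ≤ 1 + t)] at hy ⊢
          have h6 : 1 + t < 1 := by
            by_contra hcon
            push Not at hcon
            rw [min_eq_left hcon, min_self] at hy
            exact lt_irrefl _ hy
          rw [min_eq_right h6.le, min_eq_right h6.le]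
          have h7 : h.1 = e := by rw [← h2]
          have h8 : h.2 = false := by rw [← h2]
          rw [h7, h8, sg_false]
          congr 1
          ring
        · exfalso
          unfold rhoHat at hy
          rw [if_neg h1, if_neg h3, min_self, min_self] at hy
          exact lt_irrefl _ hy
    · push Not at hex
      rw [G.rhoFun_of_not _ _ hex] at hy ⊢
      by_cases hyv : y = G.endp h
      · rw [if_pos hyv, arm_apply, sub_zero, mul_one]
        exact hyv.symm
      · rw [if_neg hyv] at hy
        exact absurd hy (lt_irrefl _)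

end GraphData

end Pool.Agent.Helper14.GB
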