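import Mathlib

/-! Maps which are injective on fundamental groups. -/

set_option autoImplicit false

open CategoryTheory
open scoped unitInterval

namespace Pool.Agent.Helper14.GB

variable {A B C : Type} [TopologicalSpace A] [TopologicalSpace B] [TopologicalSpace C]

/-- `f` induces an injection on all fundamental groups. -/
def PiInj (f : C(A, B)) : Prop :=
  ∀ (a : A) (γ : Path a a), (γ.map f.continuous).Homotopic (Path.refl (f a)) →
    γ.Homotopic (Path.refl a)

theorem PiInj.injective {f : C(A, B)} (hf : PiInj f) (a : A) :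
    Function.Injective (FundamentalGroup.map f a) := by
  rw [injective_iff_map_eq_one]
  intro g hg
  obtain ⟨γ, rfl⟩ := Path.Homotopic.Quotient.mk_surjective g
  have h1 : Path.Homotopic.Quotient.mk (γ.map f.continuous) =
      Path.Homotopic.Quotient.mk (Path.refl (f a)) := hg
  have h2 := hf a γ (Path.Homotopic.Quotient.exact h1)
  exact Path.Homotopic.Quotient.eq.2 h2

theorem PiInj.of_comp {f : C(A, B)} {g : C(B, C)} (h : PiInj (g.comp f)) : PiInj f := by
  intro a γ hγ
  apply h a γ
  have := hγ.map g
  exact this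

theorem PiInj.comp {f : C(A, B)} {g : C(B, C)} (hg : PiInj g) (hf : PiInj f) :
    PiInj (g.comp f) := by
  intro a γ hγ
  apply hf a γ
  apply hg _ (γ.map f.continuous)
  exact hγ

theorem PiInj.id : PiInj (ContinuousMap.id A) := by
  intro a γ hγ
  exact hγ

theorem PiInj.homeomorph (h : A ≃ₜ B) : PiInj (⟨h, h.continuous⟩ : C(A, B)) := by
  apply PiInj.of_comp (g := ⟨h.symm, h.symm.continuous⟩)
  have : (ContinuousMap.comp ⟨h.symm, h.symm.continuous⟩ ⟨h, h.continuous⟩ : C(A, A)) =
      ContinuousMap.id A := by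
    ext x; simp
  rw [this]
  exact PiInj.id

theorem PiInj.of_homotopy {f g : C(A, B)} (H : ContinuousMap.Homotopy f g) (hg : PiInj g) :
    PiInj f := by
  intro a γ hγ
  apply hg a γ
  have h1 := Path.Homotopic.map_trans_evalAt H γ
  -- `(γ.map f).trans (H a) ~ (H a).trans (γ.map g)`
  rw [← Path.Homotopic.Quotient.eq] at h1 hγ ⊢
  rw [Path.Homotopic.Quotient.mk_trans, Path.Homotopic.Quotient.mk_trans, hγ] at h1
  -- work in the fundamental groupoid
  have h2 : (𝟙 (FundamentalGroupoid.mk (f a))) ≫
      (show FundamentalGroupoid.mk (f a) ⟶ FundamentalGroupoid.mk (g a) from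
        Path.Homotopic.Quotient.mk (H.evalAt a)) =
      (show FundamentalGroupoid.mk (f a) ⟶ FundamentalGroupoid.mk (g a) from
        Path.Homotopic.Quotient.mk (H.evalAt a)) ≫
      (show FundamentalGroupoid.mk (g a) ⟶ FundamentalGroupoid.mk (g a) from
        Path.Homotopic.Quotient.mk (γ.map g.continuous)) := h1
  rw [Category.id_comp] at h2
  have h3 : (show FundamentalGroupoid.mk (f a) ⟶ FundamentalGroupoid.mk (g a) from
        Path.Homotopic.Quotient.mk (H.evalAt a)) ≫ 𝟙 (FundamentalGroupoid.mk (g a)) =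
      (show FundamentalGroupoid.mk (f a) ⟶ FundamentalGroupoid.mk (g a) from
        Path.Homotopic.Quotient.mk (H.evalAt a)) ≫
      (show FundamentalGroupoid.mk (g a) ⟶ FundamentalGroupoid.mk (g a) from
        Path.Homotopic.Quotient.mk (γ.map g.continuous)) := by
    rw [Category.comp_id]; exact h2
  have h4 := (cancel_epi _).1 h3
  exact h4.symm

theorem PiInj.of_homotopic_id {f : C(A, A)}
    (H : ContinuousMap.Homotopy f (ContinuousMap.id A)) : PiInj f :=
  PiInj.of_homotopy H PiInj.id

theorem PiInj.covering {p : A → B} (cov : IsCoveringMap p) :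
    PiInj (⟨p, cov.continuous⟩ : C(A, B)) := by
  intro a γ hγ
  have h1 := cov.injective_path_homotopic_map a a
  rw [← Path.Homotopic.Quotient.eq] at hγ ⊢
  apply h1
  dsimp only
  rw [← Path.Homotopic.Quotient.mk_map, ← Path.Homotopic.Quotient.mk_map]
  exact hγ

end Pool.Agent.Helper14.GB
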