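import Pool.Agent.Helper14.GB.Graph
import Pool.Agent.Helper14.GB.Circle

/-! Connected graphs in which every vertex has exactly two half-edges: the line or the circle. -/

set_option autoImplicit false

open Topology Set

namespace Pool.Agent.Helper14.GB

namespace GraphData

variable {Y : Type} [TopologicalSpace Y] (G : GraphData Y)

/-- the opposite half-edge -/
def opp (h : G.H) : G.H := (h.1, !h.2)

theorem opp_opp (h : G.H) : G.opp (G.opp h) = h := by
  simp [opp]

theorem opp_ne (h : G.H) : G.opp h ≠ h := by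
  intro heq
  have := congrArg Prod.snd heq
  simp [opp] at this

theorem opp_fst (h : G.H) : (G.opp h).1 = h.1 := rfl

/-- a pairing of the half-edges at every vertex -/
structure Pairing where
  tau : G.H → G.H
  ne : ∀ h, tau h ≠ h
  endp_tau : ∀ h, G.endp (tau h) = G.endp h
  only : ∀ h h', G.endp h' = G.endp h → h' = h ∨ h' = tau h

namespace Pairing

variable {G} (P : G.Pairing)

theorem tau_tau (h : G.H) : P.tau (P.tau h) = h := by
  rcases P.only h (P.tau (P.tau h)) (by rw [P.endp_tau, P.endp_tau]) with h1 | h1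
  · exact h1
  · exact absurd h1 (P.ne (P.tau h))

/-- the next oriented edge -/
def nxt : Equiv.Perm G.H where
  toFun h := G.opp (P.tau h)
  invFun h := P.tau (G.opp h)
  left_inv h := by simp [opp_opp, tau_tau]
  right_inv h := by simp [opp_opp, tau_tau]

theorem nxt_apply (h : G.H) : P.nxt h = G.opp (P.tau h) := rfl

theorem nxt_inv_apply (h : G.H) : P.nxt⁻¹ h = P.tau (G.opp h) := rfl

theorem opp_nxt (h : G.H) : G.opp (P.nxt h) = P.nxt⁻¹ (G.opp h) := by
  rw [nxt_apply, nxt_inv_apply, opp_opp, opp_opp]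

theorem opp_nxt_inv (h : G.H) : G.opp (P.nxt⁻¹ h) = P.nxt (G.opp h) := by
  rw [nxt_apply, nxt_inv_apply]

theorem opp_zpow (k : ℤ) (h : G.H) : G.opp ((P.nxt ^ k) h) = (P.nxt ^ (-k)) (G.opp h) := by
  induction k using Int.induction_on generalizing h with
  | zero => simp
  | succ i ih =>
    rw [zpow_add, Equiv.Perm.mul_apply, ih, zpow_one, opp_nxt, neg_add, zpow_add,
      Equiv.Perm.mul_apply, zpow_neg_one]
  | pred i ih =>
    rw [zpow_sub, Equiv.Perm.mul_apply, ih, zpow_one, opp_nxt_inv, neg_sub, sub_neg_eq_add,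
      add_comm (1 : ℤ), zpow_add, Equiv.Perm.mul_apply, zpow_one, neg_neg]

variable (h0 : G.H)

/-- the sequence of oriented edges -/
def seq (i : ℤ) : G.H := (P.nxt ^ i) h0

theorem seq_succ (i : ℤ) : P.seq h0 (i + 1) = P.nxt (P.seq h0 i) := by
  unfold seq
  rw [add_comm, zpow_add, Equiv.Perm.mul_apply, zpow_one]

theorem opp_seq_succ (i : ℤ) : G.opp (P.seq h0 (i + 1)) = P.tau (P.seq h0 i) := by
  rw [seq_succ, nxt_apply, opp_opp]

theorem tau_opp_seq (i : ℤ) : P.tau (G.opp (P.seq h0 i)) = P.seq h0 (i - 1) := by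
  have h1 := P.opp_seq_succ h0 (i - 1)
  rw [sub_add_cancel] at h1
  rw [h1, tau_tau]

theorem seq_ne_opp (i j : ℤ) : P.seq h0 i ≠ G.opp (P.seq h0 j) := by
  intro h
  unfold seq at h
  rw [opp_zpow] at h
  have h1 : (P.nxt ^ (i + j)) h0 = G.opp h0 := by
    rw [add_comm, zpow_add, Equiv.Perm.mul_apply, h, ← Equiv.Perm.mul_apply, ← zpow_add,
      add_neg_cancel, zpow_zero, Equiv.Perm.one_apply]
  rcases Int.even_or_odd' (i + j) with ⟨k, hk | hk⟩
  · rw [hk, two_mul, zpow_add, Equiv.Perm.mul_apply] at h1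
    have h2 : (P.nxt ^ k) h0 = (P.nxt ^ (-k)) (G.opp h0) := by
      rw [← h1, ← Equiv.Perm.mul_apply, ← zpow_add, neg_add_cancel, zpow_zero,
        Equiv.Perm.one_apply]
    rw [← opp_zpow] at h2
    exact G.opp_ne _ h2.symm
  · have h3 : (P.nxt ^ (k + 1)) h0 = (P.nxt ^ (-k)) (G.opp h0) := by
      rw [← h1, ← Equiv.Perm.mul_apply, ← zpow_add, hk]
      congr 2
      ring
    rw [← opp_zpow, add_comm, zpow_add, Equiv.Perm.mul_apply, zpow_one, nxt_apply] at h3
    have h4 := congrArg G.opp h3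
    rw [opp_opp, opp_opp] at h4
    exact P.ne _ h4

/-- the parametrisation of an oriented edge by `[0, 1]` -/
noncomputable def dv (h : G.H) : C(ℝ, Y) :=
  (G.chi h.1).comp ⟨fun x => sg h.2 * (2 * x - 1), by fun_prop⟩

theorem dv_apply (h : G.H) (x : ℝ) : dv h x = G.chi h.1 (sg h.2 * (2 * x - 1)) := rfl

theorem dv_one (h : G.H) : dv h 1 = G.endp h := by
  rw [dv_apply, endp]
  congr 1
  ring

theorem dv_zero (h : G.H) : dv h 0 = G.endp (G.opp h) := by
  rw [dv_apply, endp, opp_fst]
  congr 1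
  have : (G.opp h).2 = !h.2 := rfl
  rw [this, sg_not]
  ring

theorem dv_seq (i : ℤ) : dv (P.seq h0 i) 1 = dv (P.seq h0 (i + 1)) 0 := by
  rw [dv_one, dv_zero, opp_seq_succ, P.endp_tau]

/-- the developing map -/
noncomputable def dev (x : ℝ) : Y := dv (P.seq h0 ⌊x⌋) (Int.fract x)

theorem dev_eq {i : ℤ} {x : ℝ} (h : x ∈ Icc (i : ℝ) (i + 1)) :
    P.dev h0 x = dv (P.seq h0 i) (x - i) := by
  rcases lt_or_eq_of_le h.2 with h1 | h1
  · have h2 : ⌊x⌋ = i := Int.floor_eq_iff.2 ⟨h.1, h1⟩
    unfold dev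
    rw [Int.fract, h2]
  · have h2 : ⌊x⌋ = i + 1 := by
      rw [h1]
      have : ((i : ℝ) + 1) = ((i + 1 : ℤ) : ℝ) := by push_cast; ring
      rw [this, Int.floor_intCast]
    unfold dev
    rw [Int.fract, h2, h1]
    push_cast
    rw [sub_self, add_sub_cancel_left, dv_seq]

theorem locallyFinite_Icc : LocallyFinite (fun i : ℤ => Icc (i : ℝ) (i + 1)) := by
  intro x
  refine ⟨Ioo (x - 1) (x + 1), Ioo_mem_nhds (by linarith) (by linarith), ?_⟩
  apply (Set.finite_Icc (⌊x⌋ - 3) (⌊x⌋ + 3)).subset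
  rintro i ⟨y, hy1, hy2⟩
  have h1 := Int.floor_le x
  have h2 := Int.lt_floor_add_one x
  have h3 := hy1.1
  have h4 := hy1.2
  have h5 := hy2.1
  have h6 := hy2.2
  constructor
  · have : ((⌊x⌋ - 3 : ℤ) : ℝ) ≤ (i : ℝ) := by push_cast; linarith
    exact_mod_cast this
  · have : (i : ℝ) ≤ ((⌊x⌋ + 3 : ℤ) : ℝ) := by push_cast; linarith
    exact_mod_cast this

theorem continuous_dev : Continuous (P.dev h0) := by
  apply LocallyFinite.continuous locallyFinite_Icc
  · ext x
    simp only [mem_iUnion, mem_univ, iff_true]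
    exact ⟨⌊x⌋, Int.floor_le x, (Int.lt_floor_add_one x).le⟩
  · intro i
    exact isClosed_Icc
  · intro i
    have h1 : Continuous (fun x : ℝ => dv (P.seq h0 i) (x - i)) := by fun_prop
    exact h1.continuousOn.congr (fun x hx => P.dev_eq h0 hx)

/-- every point of an edge met by the sequence is a value -/
theorem chi_eq_dev (i : ℤ) (t : ℝ) :
    G.chi (P.seq h0 i).1 t
      = P.dev h0 (i + (sg (P.seq h0 i).2 * max (-1) (min t 1) + 1) / 2) := by
  have h1 : |sg (P.seq h0 i).2 * max (-1) (min t 1)| ≤ 1 := by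
    rw [abs_mul, sg_abs, one_mul, abs_le]
    exact ⟨le_max_left _ _, max_le (by norm_num) (min_le_right _ _)⟩
  rw [abs_le] at h1
  rw [P.dev_eq h0 (i := i) ⟨by linarith [h1.1], by linarith [h1.2]⟩, dv_apply, G.chi_clamp]
  congr 1
  have h2 := sg_mul_self (P.seq h0 i).2
  rw [add_sub_cancel_left]
  have h3 : sg (P.seq h0 i).2 * (2 * ((sg (P.seq h0 i).2 * max (-1) (min t 1) + 1) / 2) - 1)
      = (sg (P.seq h0 i).2 * sg (P.seq h0 i).2) * max (-1) (min t 1) := by ring
  rw [h3, h2, one_mul]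

theorem exists_seq_of_mem {e : G.E} {t : ℝ} (h : G.chi e t ∈ range (P.dev h0)) :
    ∃ i, (P.seq h0 i).1 = e := by
  obtain ⟨x, hx⟩ := h
  unfold dev at hx
  rw [dv_apply] at hx
  rcases lt_or_ge |t| 1 with h1 | h1
  · have h2 := G.abs_lt_of_mem h1 hx
    exact ⟨⌊x⌋, (G.inj _ _ _ _ h2 h1 hx).1⟩
  · -- both are end points
    have h2 : 1 ≤ |sg (P.seq h0 ⌊x⌋).2 * (2 * Int.fract x - 1)| := by
      by_contra hcon
      push Not at hcon
      exact absurd (G.abs_lt_of_mem hcon hx.symm) (not_lt.2 h1)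
    rw [abs_mul, sg_abs, one_mul] at h2
    have h3 : Int.fract x = 0 := by
      have h4 := Int.fract_nonneg x
      have h5 := Int.fract_lt_one x
      rcases le_abs.1 h2 with h6 | h6
      · linarith
      · linarith
    have h4 : G.chi e t = G.endp (G.opp (P.seq h0 ⌊x⌋)) := by
      rw [← hx, h3, ← dv_apply, dv_zero]
    have h5 : ∃ b, G.endp (e, b) = G.endp (G.opp (P.seq h0 ⌊x⌋)) := by
      rcases le_abs.1 h1 with h6 | h6
      · refine ⟨true, ?_⟩
        rw [← h4, G.clamp_right e t h6]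
        show G.chi e (sg true) = _
        rw [sg_true]
      · refine ⟨false, ?_⟩
        rw [← h4, G.clamp_left e t (by linarith)]
        show G.chi e (sg false) = _
        rw [sg_false]
    obtain ⟨b, hb⟩ := h5
    rcases P.only _ _ hb with h6 | h6
    · exact ⟨⌊x⌋, by rw [← G.opp_fst, ← h6]⟩
    · rw [tau_opp_seq] at h6
      exact ⟨⌊x⌋ - 1, by rw [← h6]⟩

theorem isClopen_range : IsClopen (range (P.dev h0)) := by
  apply G.isClopen_of
  intro e
  by_cases h : ∃ t, G.chi e t ∈ range (P.dev h0)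
  · right
    obtain ⟨t, ht⟩ := h
    obtain ⟨i, rfl⟩ := P.exists_seq_of_mem h0 ht
    ext s
    simp only [mem_preimage, mem_univ, iff_true]
    rw [chi_eq_dev]
    exact mem_range_self _
  · left
    push Not at h
    ext s
    simp only [mem_preimage, mem_empty_iff_false, iff_false]
    exact h s

theorem surjective_dev [ConnectedSpace Y] : Function.Surjective (P.dev h0) := by
  rw [← range_eq_univ]
  exact (P.isClopen_range h0).eq_univ ⟨P.dev h0 0, mem_range_self _⟩

theorem exists_seq [ConnectedSpace Y] (e : G.E) : ∃ i, (P.seq h0 i).1 = e :=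
  P.exists_seq_of_mem h0 (t := 0) (P.surjective_dev h0 _)

theorem dev_eq_iff (x y : ℝ) :
    P.dev h0 x = P.dev h0 y ↔ Int.fract x = Int.fract y ∧ P.seq h0 ⌊x⌋ = P.seq h0 ⌊y⌋ := by
  constructor
  · intro h
    have h' := h
    unfold dev at h
    rw [dv_apply, dv_apply] at h
    have hx0 := Int.fract_nonneg x
    have hx1 := Int.fract_lt_one x
    have hy0 := Int.fract_nonneg y
    have hy1 := Int.fract_lt_one y
    rcases hx0.lt_or_eq with hx2 | hx2
    · have h1 : |sg (P.seq h0 ⌊x⌋).2 * (2 * Int.fract x - 1)| < 1 := by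
        rw [abs_mul, sg_abs, one_mul, abs_lt]
        constructor <;> linarith
      have h2 := G.abs_lt_of_mem h1 h.symm
      obtain ⟨h3, h4⟩ := G.inj _ _ _ _ h1 h2 h
      by_cases hb : (P.seq h0 ⌊x⌋).2 = (P.seq h0 ⌊y⌋).2
      · refine ⟨?_, Prod.ext h3 hb⟩
        rw [hb] at h4
        have h5 : sg (P.seq h0 ⌊y⌋).2 ≠ 0 := by
          intro hz
          have hs := sg_mul_self (P.seq h0 ⌊y⌋).2
          rw [hz, mul_zero] at hs
          exact zero_ne_one hs
        have h6 := mul_left_cancel₀ h5 h4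
        linarith
      · exfalso
        apply P.seq_ne_opp h0 ⌊x⌋ ⌊y⌋
        refine Prod.ext h3 ?_
        show (P.seq h0 ⌊x⌋).2 = !(P.seq h0 ⌊y⌋).2
        cases hxb : (P.seq h0 ⌊x⌋).2 <;> cases hyb : (P.seq h0 ⌊y⌋).2 <;> simp_all
    · have hy2 : Int.fract y = 0 := by
        by_contra hne
        have hy3 : 0 < Int.fract y := lt_of_le_of_ne hy0 (Ne.symm hne)
        have h1 : |sg (P.seq h0 ⌊y⌋).2 * (2 * Int.fract y - 1)| < 1 := by
          rw [abs_mul, sg_abs, one_mul, abs_lt]
          constructor <;> linarith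
        have h2 := G.abs_lt_of_mem h1 h
        rw [← hx2, abs_mul, sg_abs, one_mul] at h2
        norm_num at h2
      refine ⟨by rw [← hx2, hy2], ?_⟩
      rw [← hx2, hy2, ← dv_apply, ← dv_apply, dv_zero, dv_zero] at h
      rcases P.only _ _ h with h3 | h3
      · have := congrArg G.opp h3
        rwa [opp_opp, opp_opp] at this
      · exfalso
        rw [tau_opp_seq] at h3
        exact P.seq_ne_opp h0 _ _ h3.symm
  · rintro ⟨h1, h2⟩
    unfold dev
    rw [h1, h2]

theorem seq_eq_iff (i j : ℤ) :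
    P.seq h0 i = P.seq h0 j ↔ (MulAction.period P.nxt h0 : ℤ) ∣ j - i := by
  rw [← MulAction.zpow_smul_eq_iff_period_dvd]
  unfold seq
  rw [Equiv.Perm.smul_def]
  constructor
  · intro h
    rw [sub_eq_neg_add, zpow_add, Equiv.Perm.mul_apply, ← h, ← Equiv.Perm.mul_apply, ← zpow_add,
      neg_add_cancel, zpow_zero, Equiv.Perm.one_apply]
  · intro h
    have h1 : P.nxt ^ j = P.nxt ^ i * P.nxt ^ (j - i) := by
      rw [← zpow_add]
      congr 1
      ring
    rw [h1, Equiv.Perm.mul_apply, h]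

/-- the non-periodic case: the line -/
theorem homeo_line [ConnectedSpace Y] (hN : MulAction.period P.nxt h0 = 0) :
    Nonempty (ℝ ≃ₜ Y) := by
  have hinj : Function.Injective (P.dev h0) := by
    intro x y h
    rw [dev_eq_iff, seq_eq_iff, hN] at h
    obtain ⟨h1, h2⟩ := h
    rw [Nat.cast_zero, zero_dvd_iff, sub_eq_zero] at h2
    rw [← Int.floor_add_fract x, ← Int.floor_add_fract y, h1, h2]
  have hcl : IsClosedMap (P.dev h0) := by
    intro K hK
    apply G.weak
    intro e
    obtain ⟨i, rfl⟩ := P.exists_seq h0 e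
    have : G.chi (P.seq h0 i).1 ⁻¹' (P.dev h0 '' K)
        = (fun t : ℝ => (i + (sg (P.seq h0 i).2 * max (-1) (min t 1) + 1) / 2 : ℝ)) ⁻¹' K := by
      ext t
      rw [mem_preimage, chi_eq_dev, hinj.mem_set_image]
      rfl
    rw [this]
    apply hK.preimage
    fun_prop
  exact ⟨(Equiv.ofBijective (P.dev h0) ⟨hinj, P.surjective_dev h0⟩).toHomeomorphOfContinuousClosed
    (P.continuous_dev h0) hcl⟩

/-- the periodic case: the circle -/
theorem homeo_circle [T2Space Y] [ConnectedSpace Y] (hN : 0 < MulAction.period P.nxt h0) :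
    Nonempty (T1 ≃ₜ Y) := by
  set N := MulAction.period P.nxt h0 with hNdef
  have hper : Function.Periodic (P.dev h0) (N : ℝ) := by
    intro x
    rw [dev_eq_iff, seq_eq_iff]
    constructor
    · exact Int.fract_add_natCast x N
    · rw [Int.floor_add_natCast]
      refine ⟨-1, ?_⟩
      ring
  have hN' : (0 : ℝ) < (N : ℝ) := by exact_mod_cast hN
  have : Fact ((0 : ℝ) < (N : ℝ)) := ⟨hN'⟩
  let F : AddCircle (N : ℝ) → Y := hper.lift
  have hFc : Continuous F := continuous_coinduced_dom.mpr (P.continuous_dev h0)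
  have hFinj : Function.Injective F := by
    intro a b hab
    induction a using QuotientAddGroup.induction_on with
    | H x =>
      induction b using QuotientAddGroup.induction_on with
      | H y =>
        have h1 : P.dev h0 x = P.dev h0 y := hab
        rw [dev_eq_iff, seq_eq_iff] at h1
        obtain ⟨h2, k, hk⟩ := h1
        rw [QuotientAddGroup.eq]
        rw [AddSubgroup.mem_zmultiples_iff]
        refine ⟨k, ?_⟩
        have h3 : ((⌊y⌋ - ⌊x⌋ : ℤ) : ℝ) = (N : ℝ) * k := by
          rw [hk]; push_cast; ring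
        push_cast at h3
        have h4 := Int.floor_add_fract x
        have h5 := Int.floor_add_fract y
        rw [zsmul_eq_mul]
        linarith
  have hFsurj : Function.Surjective F := by
    intro y
    obtain ⟨x, hx⟩ := P.surjective_dev h0 y
    exact ⟨(x : AddCircle (N : ℝ)), hx⟩
  have hF : Continuous (Equiv.ofBijective F ⟨hFinj, hFsurj⟩) := hFc
  exact ⟨(AddCircle.homeomorphAddCircle (1 : ℝ) (N : ℝ) one_ne_zero hN'.ne').trans
    (Continuous.homeoOfEquivCompactToT2 hF)⟩

end Pairing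

end GraphData

end Pool.Agent.Helper14.GB
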